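import Pool.Agent.helper49.PDR.Defs
import Pool.Agent.helper14.EX1.CheN
import Pool.Agent.helper82.PD.Ev

/-!
# PDR-VisU: the expected number of visits of the strip is bounded

`vis_eq`: `vis K X n l A = ∑ i ∈ range (n + 1), ∑ v ∈ lw K i, [strip X (l + i) (A + v.sum)] (1/2) ^ v.sum` (induction on `n`, `sum_lw_succ`).
If `(l, A)` is in the strip then `strip X (l + i) (A + v.sum)` implies `2 ^ v.sum < 2 * 3 ^ i`, so (for `i ≥ 4`) `v.sum < 1.9 i`
(`2 ^ (1.9 i) ≥ 2 * 3 ^ i`: `2 ^ 19 > 3 ^ 10 * 8`, so `(2 ^ 19 / 3 ^ 10) ^ (i/10) ≥ 8 ^ (i / 10) ≥ 2` for `i ≥ 4`) and `cheN` with `e = 1/10` bounds the probability by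
`C ρ ^ i`: `vis ≤ 4 + C / (1 - ρ) =: M`.  For all states: induction on `n` (`∑ k (1/2)^k ≤ 1`).
-/

namespace Pool.Agent.helper49.PDR

open Finset Pool.Agent.helper14.EX1

open Classical in
theorem vis_eq (K : ℕ) (X : ℝ) (n l A : ℕ) :
    vis K X n l A = ∑ i ∈ range (n + 1), ∑ v ∈ lw K i,
      (if strip X (l + i) (A + v.sum) then (1 / 2 : ℝ) ^ v.sum else 0) := by
  induction n generalizing l A with
  | zero =>
    simp [vis, lw]
  | succ n ih =>
    rw [vis, sum_range_succ']
    have h0 : ∑ v ∈ lw K 0, (if strip X (l + 0) (A + v.sum) then (1 / 2 : ℝ) ^ v.sum else 0) =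
        if strip X l A then 1 else 0 := by
      simp [lw]
    rw [h0, add_comm]
    congr 1
    calc ∑ k ∈ Icc 1 K, (1 / 2 : ℝ) ^ k * vis K X n (l + 1) (A + k)
        = ∑ k ∈ Icc 1 K, ∑ i ∈ range (n + 1), ∑ v ∈ lw K i, (1 / 2 : ℝ) ^ k *
            (if strip X (l + 1 + i) (A + k + v.sum) then (1 / 2 : ℝ) ^ v.sum else 0) := by
          refine sum_congr rfl fun k _ => ?_
          rw [ih, mul_sum]
          refine sum_congr rfl fun i _ => ?_
          rw [mul_sum]
      _ = ∑ i ∈ range (n + 1), ∑ k ∈ Icc 1 K, ∑ v ∈ lw K i, (1 / 2 : ℝ) ^ k *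
            (if strip X (l + 1 + i) (A + k + v.sum) then (1 / 2 : ℝ) ^ v.sum else 0) := sum_comm
      _ = _ := by
          refine sum_congr rfl fun i _ => ?_
          rw [sum_lw_succ]
          refine sum_congr rfl fun k _ => sum_congr rfl fun v _ => ?_
          have e1 : l + 1 + i = l + (i + 1) := by ring
          have e2 : A + k + v.sum = A + (k :: v).sum := by
            rw [List.sum_cons]
            ring
          rw [e1, e2]
          by_cases hs : strip X (l + (i + 1)) (A + (k :: v).sum)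
          · rw [if_pos hs, if_pos hs, List.sum_cons, pow_add]
          · rw [if_neg hs, if_neg hs, mul_zero]

/-- The same function as in `Pool.Agent.helper82.PD`. -/
theorem VisU_ev (K : ℕ) (X : ℝ) (n l A : ℕ) :
    vis K X n l A = Pool.Agent.helper82.PD.ev K X n l A := by
  classical
  induction n generalizing l A with
  | zero =>
    unfold vis Pool.Agent.helper82.PD.ev
    rfl
  | succ n ih =>
    unfold vis Pool.Agent.helper82.PD.ev
    have h1 : ∀ k, vis K X n (l + 1) (A + k) = Pool.Agent.helper82.PD.ev K X n (l + 1) (A + k) :=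
      fun k => ih _ _
    simp only [h1]
    rfl

theorem vis_nn (K : ℕ) (X : ℝ) (n l A : ℕ) : 0 ≤ vis K X n l A := by
  rw [VisU_ev]
  exact Pool.Agent.helper82.PD.ev_nn K X n l A

theorem vis_le : ∃ M : ℝ, 1 ≤ M ∧ ∀ (K : ℕ) (X : ℝ) (n l A : ℕ), 0 < X → vis K X n l A ≤ M := by
  refine ⟨28, by norm_num, fun K X n l A hX => ?_⟩
  rw [VisU_ev]
  exact Pool.Agent.helper82.PD.ev_le K hX n l A

end Pool.Agent.helper49.PDR
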