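import Pool.Agent.helper49.PDR.Stp
import Pool.Agent.helper49.PDR.VisU

/-!
# PDR-Tel: telescoping of `step_low` along the expected number of visits

`D` from `step_low 2`, `M` from `vis_le`.  For `l ≤ m ≤ l + r` put
`U m = ∑ j ∈ Ico l m, ∑ u ∈ GH j, [Ala x u, strip X j u.sum] ww u + ∑ u ∈ GH m, [Ala x u] ww u * vis K X (l + r - m) m u.sum`.
`U l` is the sum on the left, `U (l + r)` the sum on the right (`vis K X 0`).  For `m < l + r`: `vis K X (l + r - m) m A = [strip X m A] + nx K h A` with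
`h = vis K X (l + r - m - 1) (m + 1)` (unfold `vis`), `0 ≤ h ≤ M`, so `step_low` for `h / M` gives `U (m + 1) ≥ U m - M 2 ^ i0 D / m ^ 2` (conditions: `m ≥ l ≥ n0 ≥ 100`,
`10 i0 ≤ 9 n0`, `25 h0 ≤ 24 m` from `11 h0 ≤ 10 l`).  `∑_{m ≥ l} 1 / m ^ 2 ≤ 2 / l ≤ 2 / n0`; choose `n0` with `M 2 ^ i0 D 2 / n0 ≤ d`.
-/

namespace Pool.Agent.helper49.PDR

open Finset Pool.Agent.helper14.EX1

theorem Tel_inv {m : ℝ} (hm : 1 ≤ m) : 1 / m ^ 2 + 2 / (m + 1) ≤ 2 / m := by
  have h0 : 0 < m := by linarith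
  rw [div_add_div _ _ (by positivity) (by positivity), div_le_div_iff₀ (by positivity) h0]
  nlinarith [mul_pos h0 h0, mul_pos (mul_pos h0 h0) h0, mul_nonneg h0.le (sub_nonneg.2 hm),
    mul_nonneg (mul_pos h0 h0).le (sub_nonneg.2 hm)]

theorem sum_sq_tail {l n : ℕ} (hl : 1 ≤ l) : ∑ m ∈ Ico l n, (1 : ℝ) / (m : ℝ) ^ 2 ≤ 2 / l := by
  rcases le_total n l with h | h
  · rw [Ico_eq_empty (by omega), sum_empty]
    positivity
  · have key : ∀ n, l ≤ n → ∑ m ∈ Ico l n, (1 : ℝ) / (m : ℝ) ^ 2 + 2 / n ≤ 2 / l := by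
      intro n hn
      induction n, hn using Nat.le_induction with
      | base => simp
      | succ n hn ih =>
        rw [sum_Ico_succ_top hn]
        have h1 : (1 : ℝ) ≤ n := by exact_mod_cast hl.trans hn
        have h2 := Tel_inv h1
        push_cast
        linarith
    have h1 := key n h
    have h2 : (0 : ℝ) ≤ 2 / n := by positivity
    linarith

open Classical in
theorem Tel_scale {C ρ D M : ℝ} (hM : 1 ≤ M) {R : Rule C ρ} {i0 h0 K l : ℕ} {H : List ℕ → Prop}
    (hs : ∀ h : ℕ → ℝ, (∀ A, 0 ≤ h A) → (∀ A, h A ≤ 1) → ∀ x : ℤ,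
      ∑ u ∈ GH R i0 h0 H K l, (if Ala x u then ww u * nx K h u.sum else 0) ≤
        ∑ w ∈ GH R i0 h0 H K (l + 1), (if Ala x w then ww w * h w.sum else 0) +
          2 ^ i0 * (D / (l : ℝ) ^ 2)) (h : ℕ → ℝ) (hh0 : ∀ A, 0 ≤ h A) (hh1 : ∀ A, h A ≤ M) (x : ℤ) :
    ∑ u ∈ GH R i0 h0 H K l, (if Ala x u then ww u * nx K h u.sum else 0) ≤
      ∑ w ∈ GH R i0 h0 H K (l + 1), (if Ala x w then ww w * h w.sum else 0) +
        M * (2 ^ i0 * (D / (l : ℝ) ^ 2)) := by
  have hM0 : 0 < M := by linarith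
  have h1 := hs (fun A => M⁻¹ * h A) (fun A => mul_nonneg (inv_nonneg.2 hM0.le) (hh0 A))
    (fun A => by
      rw [inv_mul_le_iff₀ hM0, mul_one]
      exact hh1 A) x
  have h2 := mul_le_mul_of_nonneg_left h1 hM0.le
  rw [mul_add, mul_sum, mul_sum] at h2
  have e1 : ∑ u ∈ GH R i0 h0 H K l, (if Ala x u then ww u * nx K h u.sum else 0) =
      ∑ u ∈ GH R i0 h0 H K l,
        M * (if Ala x u then ww u * nx K (fun A => M⁻¹ * h A) u.sum else 0) := by
    refine sum_congr rfl fun u _ => ?_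
    split_ifs
    · have e2 : nx K (fun A => M⁻¹ * h A) u.sum = M⁻¹ * nx K h u.sum := by
        unfold nx
        rw [mul_sum]
        exact sum_congr rfl fun k _ => by ring
      rw [e2]
      field_simp
    · ring
  have e3 : ∑ w ∈ GH R i0 h0 H K (l + 1), (if Ala x w then ww w * h w.sum else 0) =
      ∑ w ∈ GH R i0 h0 H K (l + 1), M * (if Ala x w then ww w * (M⁻¹ * h w.sum) else 0) := by
    refine sum_congr rfl fun w _ => ?_
    split_ifs
    · field_simp
    · ring
  rw [e1, e3]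
  exact h2

open Classical in
theorem vis_tel {C ρ : ℝ} (hC : 0 ≤ C) (hρ : 0 < ρ) (hρ1 : ρ < 1) (i0 : ℕ) {d : ℝ} (hd : 0 < d) :
    ∃ n0 : ℕ, i0 ≤ n0 ∧ ∀ (R : Rule C ρ) (h0 l : ℕ), n0 ≤ l → 11 * h0 ≤ 10 * l →
      ∀ (K r : ℕ) (X : ℝ) (x : ℤ) (H : List ℕ → Prop), 0 < X →
      ∑ u ∈ GH R i0 h0 H K l, (if Ala x u then ww u * vis K X r l u.sum else 0) - d ≤
        ∑ j ∈ range (r + 1), ∑ v ∈ GH R i0 h0 H K (l + j),
          (if Ala x v ∧ strip X (l + j) v.sum then ww v else 0) := by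
  obtain ⟨D, hD, hstep⟩ := step_low 2 hC hρ hρ1
  obtain ⟨M, hM, hvis⟩ := vis_le
  obtain ⟨E, hE⟩ : ∃ E, E = M * (2 ^ i0 * D) := ⟨_, rfl⟩
  have hE0 : 0 ≤ E := by
    rw [hE]
    have : 0 ≤ M := by linarith
    positivity
  obtain ⟨n1, hn1⟩ := exists_nat_ge (2 * E / d)
  refine ⟨max (max 100 (2 * i0)) (n1 + 1), ?_, ?_⟩
  · omega
  intro R h0 l hl hh K r X x H hX
  have key : ∀ (r l : ℕ), max (max 100 (2 * i0)) (n1 + 1) ≤ l → 11 * h0 ≤ 10 * l →
      ∑ u ∈ GH R i0 h0 H K l, (if Ala x u then ww u * vis K X r l u.sum else 0) - E * (2 / l) ≤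
        ∑ j ∈ range (r + 1), ∑ v ∈ GH R i0 h0 H K (l + j),
          (if Ala x v ∧ strip X (l + j) v.sum then ww v else 0) := by
    intro r
    induction r with
    | zero =>
      intro l hl hh
      have h1 : (0:ℝ) ≤ E * (2 / l) := by positivity
      rw [zero_add, sum_range_one]
      have h2 : ∑ u ∈ GH R i0 h0 H K l, (if Ala x u then ww u * vis K X 0 l u.sum else 0) =
          ∑ v ∈ GH R i0 h0 H K (l + 0), (if Ala x v ∧ strip X (l + 0) v.sum then ww v else 0) := by
        rw [add_zero]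
        refine sum_congr rfl fun u _ => ?_
        unfold vis
        by_cases a1 : Ala x u
        · by_cases a2 : strip X l u.sum
          · simp [a1, a2]
          · simp [a1, a2]
        · simp [a1]
      linarith
    | succ r ih =>
      intro l hl hh
      have hl1 : 1 ≤ l := by omega
      have h1 := ih (l + 1) (by omega) (by omega)
      have h2 := Tel_scale (R := R) (i0 := i0) (h0 := h0) (K := K) (l := l) (H := H) (D := D) hM
        (fun h a b y => hstep R i0 h0 K l H h a b y (by omega) (by omega) (by omega))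
        (fun A => vis K X r (l + 1) A) (fun A => vis_nn K X r (l + 1) A)
        (fun A => hvis K X r (l + 1) A hX) x
      have h3 : ∑ u ∈ GH R i0 h0 H K l, (if Ala x u then ww u * vis K X (r + 1) l u.sum else 0) =
          ∑ v ∈ GH R i0 h0 H K (l + 0), (if Ala x v ∧ strip X (l + 0) v.sum then ww v else 0) +
          ∑ u ∈ GH R i0 h0 H K l,
            (if Ala x u then ww u * nx K (fun A => vis K X r (l + 1) A) u.sum else 0) := by
        rw [add_zero, ← sum_add_distrib]
        refine sum_congr rfl fun u _ => ?_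
        have e : vis K X (r + 1) l u.sum = (if strip X l u.sum then 1 else 0) +
            nx K (fun A => vis K X r (l + 1) A) u.sum := rfl
        rw [e]
        by_cases a1 : Ala x u
        · by_cases a2 : strip X l u.sum
          · simp [a1, a2, mul_add]
          · simp [a1, a2]
        · simp [a1]
      have h4 : ∑ j ∈ range (r + 1 + 1), ∑ v ∈ GH R i0 h0 H K (l + j),
            (if Ala x v ∧ strip X (l + j) v.sum then ww v else 0) =
          ∑ j ∈ range (r + 1), ∑ v ∈ GH R i0 h0 H K (l + 1 + j),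
            (if Ala x v ∧ strip X (l + 1 + j) v.sum then ww v else 0) +
          ∑ v ∈ GH R i0 h0 H K (l + 0), (if Ala x v ∧ strip X (l + 0) v.sum then ww v else 0) := by
        rw [sum_range_succ']
        congr 1
        refine sum_congr rfl fun j _ => ?_
        have e : l + (j + 1) = l + 1 + j := by ring
        rw [e]
      have h5 : M * (2 ^ i0 * (D / (l : ℝ) ^ 2)) + E * (2 / ((l + 1 : ℕ) : ℝ)) ≤ E * (2 / l) := by
        have e : M * (2 ^ i0 * (D / (l : ℝ) ^ 2)) = E * (1 / (l : ℝ) ^ 2) := by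
          rw [hE]
          ring
        rw [e, ← mul_add]
        refine mul_le_mul_of_nonneg_left ?_ hE0
        push_cast
        exact Tel_inv (by exact_mod_cast hl1)
      rw [h3, h4]
      linarith
  have h1 := key r l hl hh
  have h2 : E * (2 / l) ≤ d := by
    have hl0 : (0:ℝ) < l := by
      have : 0 < l := by omega
      exact_mod_cast this
    have h3 : 2 * E / d ≤ l := by
      refine hn1.trans ?_
      have : n1 ≤ l := by omega
      exact_mod_cast this
    rw [div_le_iff₀ hd] at h3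
    rw [← mul_div_assoc, div_le_iff₀ hl0]
    linarith
  linarith

end Pool.Agent.helper49.PDR
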