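import Pool.Agent.helper49.PDR.Defs

/-!
# PDR-Sb: the constants of good words are bounded

From the right: `Gw (u ++ [k]) = 2 ^ k * Gw u + 3 ^ u.length * tk k` (induction on `u`), `|tk k| ≤ 2 ^ k` (`tk_abs`), so
`|Gw w| / 2 ^ w.sum ≤ ∑ j ∈ range w.length, 3 ^ j / 2 ^ (w.take j).sum` (induction from the right, `List.reverseRecOn`).
For `j < i0`: `(w.take j).sum ≥ j`, the term is at most `(3/2) ^ j`, the sum is at most `2 (3/2) ^ i0`.  For `j ≥ i0`: `R.Q (w.take j)` gives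
`39 j ≤ 20 (w.take j).sum`, the term is at most `(39/50) ^ j` since `3 ^ 20 * 50 ^ 20 ≤ 39 ^ 20 * 2 ^ 39`; the sum is at most `50/11`.
-/

namespace Pool.Agent.helper49.PDR

open Finset Pool.Agent.helper14.EX1

theorem gw_snoc (u : List ℕ) (k : ℕ) : Gw (u ++ [k]) = 2 ^ k * Gw u + 3 ^ u.length * tk k := by
  induction u with
  | nil => simp [Gw]
  | cons a u ih =>
    rw [List.cons_append]
    change 2 ^ (u ++ [k]).sum * tk a + 3 * Gw (u ++ [k]) =
      2 ^ k * (2 ^ u.sum * tk a + 3 * Gw u) + 3 ^ (u.length + 1) * tk k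
    rw [ih, List.sum_append, List.sum_singleton, pow_add, pow_succ]
    ring

theorem gw_sum_bound {w : List ℕ} (h1 : ∀ k ∈ w, 1 ≤ k) :
    |(Gw w : ℝ)| ≤ (∑ j ∈ range w.length, (3 : ℝ) ^ j / 2 ^ (w.take j).sum) * 2 ^ w.sum := by
  induction w using List.reverseRecOn with
  | nil => simp [Gw]
  | append_singleton u k ih =>
    have hu : ∀ a ∈ u, 1 ≤ a := fun a ha => h1 a (List.mem_append_left _ ha)
    have hk : 1 ≤ k := h1 k (by simp)
    have h2 := ih hu
    have h3 := tk_abs hk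
    have e1 : ∑ j ∈ range (u ++ [k]).length, (3 : ℝ) ^ j / 2 ^ ((u ++ [k]).take j).sum =
        (∑ j ∈ range u.length, (3 : ℝ) ^ j / 2 ^ (u.take j).sum) + 3 ^ u.length / 2 ^ u.sum := by
      rw [List.length_append, List.length_singleton, sum_range_succ]
      congr 1
      · refine sum_congr rfl fun j hj => ?_
        rw [List.take_append_of_le_length (mem_range.1 hj).le]
      · rw [List.take_append_of_le_length le_rfl, List.take_length]
    rw [e1, gw_snoc, List.sum_append, List.sum_singleton, pow_add]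
    push_cast
    have h4 : (0 : ℝ) < 2 ^ u.sum := by positivity
    have e2 : ((∑ j ∈ range u.length, (3 : ℝ) ^ j / 2 ^ (u.take j).sum) + 3 ^ u.length / 2 ^ u.sum) *
        (2 ^ u.sum * 2 ^ k) =
        2 ^ k * ((∑ j ∈ range u.length, (3 : ℝ) ^ j / 2 ^ (u.take j).sum) * 2 ^ u.sum) +
          3 ^ u.length * 2 ^ k := by
      field_simp
    rw [e2]
    refine (abs_add_le _ _).trans (add_le_add ?_ ?_)
    · rw [abs_mul, abs_of_pos (show (0 : ℝ) < 2 ^ k by positivity)]
      exact mul_le_mul_of_nonneg_left h2 (by positivity)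
    · rw [abs_mul, abs_of_pos (show (0 : ℝ) < 3 ^ u.length by positivity)]
      exact mul_le_mul_of_nonneg_left h3 (by positivity)

theorem Sb_len_le_sum {w : List ℕ} (h1 : ∀ k ∈ w, 1 ≤ k) : w.length ≤ w.sum := by
  induction w with
  | nil => simp
  | cons a w ih =>
    have h2 := h1 a (by simp)
    have h3 := ih fun k hk => h1 k (List.mem_cons_of_mem _ hk)
    rw [List.length_cons, List.sum_cons]
    omega

theorem Sb_term {j S : ℕ} (h : 39 * j ≤ 20 * S) : (3 : ℝ) ^ j / 2 ^ S ≤ (39 / 50) ^ j := by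
  rw [← pow_le_pow_iff_left₀ (by positivity) (by positivity) (show 20 ≠ 0 by norm_num)]
  have h1 : (2 : ℝ) ^ (39 * j) ≤ 2 ^ (20 * S) := pow_le_pow_right₀ (by norm_num) h
  have h2 : ((3 : ℝ) ^ j / 2 ^ S) ^ 20 = (3 ^ 20) ^ j / 2 ^ (20 * S) := by
    rw [div_pow, ← pow_mul, ← pow_mul, ← pow_mul, mul_comm j 20, mul_comm S 20]
  have h3 : (((39 : ℝ) / 50) ^ j) ^ 20 = ((39 / 50) ^ 20) ^ j := by
    rw [← pow_mul, ← pow_mul, mul_comm]
  rw [h2, h3]
  calc (3 ^ 20 : ℝ) ^ j / 2 ^ (20 * S) ≤ (3 ^ 20) ^ j / 2 ^ (39 * j) :=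
        div_le_div_of_nonneg_left (by positivity) (by positivity) h1
    _ = (3 ^ 20 / 2 ^ 39) ^ j := by rw [pow_mul 2 39 j, div_pow]
    _ ≤ ((39 / 50) ^ 20) ^ j := pow_le_pow_left₀ (by positivity) (by norm_num) j

theorem gw_bound {C ρ : ℝ} (R : Rule C ρ) (i0 : ℕ) {w : List ℕ} (h1 : ∀ k ∈ w, 1 ≤ k)
    (h : Good R i0 w) : |(Gw w : ℝ)| ≤ 8 * 2 ^ i0 * 2 ^ w.sum := by
  refine (gw_sum_bound h1).trans (mul_le_mul_of_nonneg_right ?_ (by positivity))
  have h2 : ∀ j ∈ range w.length, (3 : ℝ) ^ j / 2 ^ (w.take j).sum ≤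
      (if j < i0 then (3 / 2 : ℝ) ^ j else 0) + (39 / 50) ^ j := by
    intro j hj
    have hj1 : j < w.length := mem_range.1 hj
    have hl : (w.take j).length = j := by rw [List.length_take]; omega
    by_cases hi : j < i0
    · rw [if_pos hi]
      have h3 : j ≤ (w.take j).sum := by
        have := Sb_len_le_sum (w := w.take j) fun k hk => h1 k (List.mem_of_mem_take hk)
        omega
      have h4 : (3 : ℝ) ^ j / 2 ^ (w.take j).sum ≤ (3 / 2) ^ j := by
        rw [div_pow]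
        exact div_le_div_of_nonneg_left (by positivity) (by positivity)
          (pow_le_pow_right₀ (by norm_num) h3)
      have h5 : (0 : ℝ) ≤ (39 / 50) ^ j := by positivity
      linarith
    · rw [if_neg hi, zero_add]
      refine Sb_term ?_
      have h3 := R.lo _ (h j (not_lt.1 hi) hj1.le)
      rwa [hl] at h3
  refine (sum_le_sum h2).trans ?_
  rw [sum_add_distrib]
  have h3 : ∑ j ∈ range w.length, (if j < i0 then (3 / 2 : ℝ) ^ j else 0) ≤
      ∑ j ∈ range i0, (3 / 2 : ℝ) ^ j := by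
    rw [← sum_filter]
    refine sum_le_sum_of_subset_of_nonneg ?_ fun j _ _ => by positivity
    intro j hj
    exact mem_range.2 (mem_filter.1 hj).2
  have h4 : ∑ j ∈ range i0, (3 / 2 : ℝ) ^ j = 2 * ((3 / 2) ^ i0 - 1) := by
    rw [geom_sum_eq (by norm_num)]
    ring
  have h5 : ∑ j ∈ range w.length, (39 / 50 : ℝ) ^ j ≤ 50 / 11 := by
    rw [geom_sum_eq (by norm_num)]
    have : (0 : ℝ) ≤ (39 / 50) ^ w.length := by positivity
    rw [div_le_iff_of_neg (by norm_num)]
    linarith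
  have h6 : (3 / 2 : ℝ) ^ i0 ≤ 2 ^ i0 := pow_le_pow_left₀ (by norm_num) (by norm_num) i0
  have h7 : (1 : ℝ) ≤ 2 ^ i0 := one_le_pow₀ (by norm_num)
  linarith

end Pool.Agent.helper49.PDR
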