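import Pool.Agent.helper49.PDR.Defs

/-!
# PDR-Av: averages of sums over words

One word `v` of length `i`: by `sum_split i m` (residue `y = B + 3 ^ i W`), `ala_shift`, `nd_shift` (with `q = 0`), `sum_affine` (`2 ^ v.sum` is
prime to `3`) and `ala_count`: `∑_{y < 3^(m+i)} [Ala y v] g (nd y v) = ∑_{z < 3^m} g z`, and `ww v / 3 ^ i = (1/2) ^ v.sum`.
-/

namespace Pool.Agent.helper49.PDR

open Finset Pool.Agent.helper14.EX1

/-- Shifting by a multiple of `3 ^ length`. -/
theorem Av_ala (v : List ℕ) {i : ℕ} (hi : v.length = i) (m : ℕ) (x y : ℤ) :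
    Ala (x + 3 ^ (m + i) * y) v ↔ Ala x v := by
  have h : x + 3 ^ (m + i) * y = x + 3 ^ v.length * (3 ^ m * y) := by
    rw [hi, pow_add]
    ring
  rw [h]
  exact ala_shift v x _

theorem Av_nd (v : List ℕ) {i : ℕ} (hi : v.length = i) (m : ℕ) {φ : ℤ → ℝ} (hφ : Per m φ)
    (x y : ℤ) : φ (nd (x + 3 ^ (m + i) * y) v) = φ (nd x v) := by
  rw [← hi, nd_shift]
  exact per_mul hφ _ _

/-- One word: the sum over the residues. -/
theorem Av_one (v : List ℕ) (hv : ∀ k ∈ v, 1 ≤ k) (m : ℕ) {φ : ℤ → ℝ} (hφ : Per m φ) :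
    ∑ y ∈ range (3 ^ (m + v.length)), (if Ala (y : ℤ) v then φ (nd (y : ℤ) v) else 0) =
      ∑ z ∈ range (3 ^ m), φ (z : ℤ) := by
  have hu : ¬ (3 : ℤ) ∣ 2 ^ v.sum := by
    intro h
    have := Int.Prime.dvd_pow' Nat.prime_three h
    omega
  rw [add_comm m, sum_split v.length m (fun y => if Ala y v then φ (nd y v) else 0)]
  have key : ∀ B ∈ range (3 ^ v.length), (∑ W ∈ range (3 ^ m),
      (if Ala ((B : ℤ) + 3 ^ v.length * (W : ℤ)) v then
        φ (nd ((B : ℤ) + 3 ^ v.length * (W : ℤ)) v) else 0)) =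
      (if Ala (B : ℤ) v then (1 : ℝ) else 0) * ∑ z ∈ range (3 ^ m), φ (z : ℤ) := by
    intro B _
    by_cases hB : Ala (B : ℤ) v
    · rw [if_pos hB, one_mul, ← sum_affine hφ hu (nd (B : ℤ) v)]
      refine Finset.sum_congr rfl fun W _ => ?_
      rw [if_pos ((ala_shift v _ _).2 hB)]
      have h := nd_shift v 0 (B : ℤ) (W : ℤ)
      rw [zero_add, pow_zero, one_mul] at h
      rw [h, add_comm (nd (B : ℤ) v)]
    · rw [if_neg hB, zero_mul]
      refine Finset.sum_eq_zero fun W _ => ?_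
      exact if_neg (fun h => hB ((ala_shift v _ _).1 h))
  rw [Finset.sum_congr rfl key, ← Finset.sum_mul, ala_count v hv, one_mul]

/-- One word: the average. -/
theorem Av_avg (v : List ℕ) (hv : ∀ k ∈ v, 1 ≤ k) (m : ℕ) {φ : ℤ → ℝ} (hφ : Per m φ) :
    avg (m + v.length) (fun y => if Ala y v then ww v * φ (nd y v) else 0) =
      (1 / 2 : ℝ) ^ v.sum * avg m φ := by
  have h1 : (fun y => if Ala y v then ww v * φ (nd y v) else 0) =
      fun y => ww v * (if Ala y v then φ (nd y v) else 0) := by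
    funext y
    split_ifs
    · rfl
    · exact (mul_zero _).symm
  rw [h1, avg_smul]
  unfold avg
  rw [Av_one v hv m hφ]
  unfold ww
  rw [pow_add, one_div, inv_pow]
  have h3 : (3 : ℝ) ^ v.length ≠ 0 := by positivity
  have h4 : (3 : ℝ) ^ m ≠ 0 := by positivity
  have h5 : (2 : ℝ) ^ v.sum ≠ 0 := by positivity
  field_simp

theorem Av_avg_sum {κ : Type} (q : ℕ) (s : Finset κ) (F : κ → ℤ → ℝ) :
    avg q (fun x => ∑ i ∈ s, F i x) = ∑ i ∈ s, avg q (F i) := by
  unfold avg
  rw [Finset.sum_comm, Finset.sum_div]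

open Classical in
theorem per_words (K i m : ℕ) (P : List ℕ → Prop) {g : List ℕ → ℤ → ℝ} (hg : ∀ v, Per m (g v)) :
    Per (m + i) (fun y => ∑ v ∈ lw K i, if P v ∧ Ala y v then ww v * g v (nd y v) else 0) := by
  intro x
  refine Finset.sum_congr rfl fun v hv => ?_
  have hl := (mem_lw.1 hv).1
  have h1 := Av_ala v hl m x 1
  have h2 := Av_nd v hl m (hg v) x 1
  rw [mul_one] at h1 h2
  by_cases h : P v ∧ Ala x v
  · rw [if_pos h, if_pos ⟨h.1, h1.2 h.2⟩, h2]
  · rw [if_neg h, if_neg (fun h' => h ⟨h'.1, h1.1 h'.2⟩)]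

open Classical in
theorem avg_words (K i m : ℕ) (P : List ℕ → Prop) {g : List ℕ → ℤ → ℝ} (hg : ∀ v, Per m (g v)) :
    avg (m + i) (fun y => ∑ v ∈ lw K i, if P v ∧ Ala y v then ww v * g v (nd y v) else 0) =
      ∑ v ∈ lw K i, if P v then (1 / 2 : ℝ) ^ v.sum * avg m (g v) else 0 := by
  have h0 : (fun y => ∑ v ∈ lw K i, if P v ∧ Ala y v then ww v * g v (nd y v) else 0) =
      fun y => ∑ v ∈ lw K i, (fun v y => if P v ∧ Ala y v then ww v * g v (nd y v) else 0) v y := rfl
  rw [h0, Av_avg_sum]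
  refine Finset.sum_congr rfl fun v hv => ?_
  obtain ⟨hl, hk⟩ := mem_lw.1 hv
  by_cases h : P v
  · have h1 : (fun y => if P v ∧ Ala y v then ww v * g v (nd y v) else 0) =
        fun y => if Ala y v then ww v * g v (nd y v) else 0 := by
      funext y
      by_cases hy : Ala y v
      · rw [if_pos ⟨h, hy⟩, if_pos hy]
      · rw [if_neg (fun h' => hy h'.2), if_neg hy]
    rw [if_pos h, ← Av_avg v (fun k hk' => (hk k hk').1) m (hg v), hl]
    exact congrArg (avg (m + i)) h1
  · have h1 : (fun y => if P v ∧ Ala y v then ww v * g v (nd y v) else 0) = fun _ => (0 : ℝ) := by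
      funext y
      rw [if_neg (fun h' => h h'.1)]
    rw [if_neg h]
    exact (congrArg (avg (m + i)) h1).trans (avg_const _ 0)

/-- The total probability of the words of length `n`. -/
theorem sum_half (K n : ℕ) : ∑ v ∈ lw K n, (1 / 2 : ℝ) ^ v.sum = th K ^ n := by
  induction n with
  | zero => simp [lw]
  | succ n ih =>
    rw [sum_lw_succ, pow_succ', ← th_eq, sum_mul]
    refine sum_congr rfl fun k _ => ?_
    rw [th_eq, ← ih, mul_sum]
    refine sum_congr rfl fun v _ => ?_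
    rw [List.sum_cons, pow_add]

theorem per_FF (K n : ℕ) : Per n (FF K n) := by
  intro x
  unfold FF
  refine Finset.sum_congr rfl fun v hv => ?_
  have h1 := Av_ala v (mem_lw.1 hv).1 0 x 1
  rw [mul_one, zero_add] at h1
  by_cases h : Ala x v
  · rw [if_pos h, if_pos (h1.2 h)]
  · rw [if_neg h, if_neg (fun h' => h (h1.1 h'))]

theorem avg_FF_le (K n : ℕ) : avg n (FF K n) ≤ 1 := by
  have h2 : avg n (FF K n) = ∑ v ∈ lw K n, (1 / 2 : ℝ) ^ v.sum := by
    have h0 : FF K n = fun y => ∑ v ∈ lw K n,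
        (fun v y => if Ala y v then ww v * (fun _ : ℤ => (1 : ℝ)) (nd y v) else 0) v y := by
      funext y
      unfold FF
      refine Finset.sum_congr rfl fun v _ => ?_
      by_cases h : Ala y v
      · simp only [if_pos h, mul_one]
      · simp only [if_neg h]
    rw [h0, Av_avg_sum]
    refine Finset.sum_congr rfl fun v hv => ?_
    obtain ⟨hl, hk⟩ := mem_lw.1 hv
    have h := Av_avg v (fun k hk' => (hk k hk').1) 0 (per_const 0 1)
    rw [zero_add, hl, avg_const] at h
    exact h.trans (mul_one _)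
  rw [h2, sum_half]
  have h3 := th_lt_one K
  have h4 : 0 ≤ th K := by
    unfold th
    have : ((1 : ℝ) / 2) ^ K ≤ 1 := pow_le_one₀ (by norm_num) (by norm_num)
    linarith
  exact pow_le_one₀ h4 h3.le

theorem FF_nn (K n : ℕ) (x : ℤ) : 0 ≤ FF K n x := by
  unfold FF
  refine Finset.sum_nonneg fun v _ => ?_
  split_ifs
  · exact (ww_pos v).le
  · exact le_rfl

/-- Words of length `a + b`. -/
theorem sum_lw_add (K a b : ℕ) (F : List ℕ → ℝ) :
    ∑ w ∈ lw K (a + b), F w = ∑ u ∈ lw K a, ∑ v ∈ lw K b, F (u ++ v) := by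
  induction a generalizing F with
  | zero =>
    rw [zero_add]
    simp [lw]
  | succ a ih =>
    rw [show a + 1 + b = (a + b) + 1 by ring, sum_lw_succ, sum_lw_succ]
    refine sum_congr rfl fun k _ => ?_
    rw [ih (fun w => F (k :: w))]
    rfl

end Pool.Agent.helper49.PDR
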