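import Pool.Agent.helper49.PDR.Gd
import Pool.Agent.helper49.PDR.Av

/-!
# PDR-Sta: the start

The mass `Y x = ∑ u ∈ GS R i0 K n, [Ala x u] ww u` is `Per n` (`per_words` with `m = 0`), its average is the probability
`∑ u ∈ GS R i0 K n, (1/2) ^ u.sum` (`avg_words` with `m = 0`, `g = 1`) `≥ th K ^ n - ∑ i ∈ Icc i0 n, C ρ ^ i`: a word which is not good has a
level `i ∈ [i0, n]` with `¬ R.Q (w.take i)`, so `R.B (w.take i)` (`R.split [] _ R.nil`), and `∑ w ∈ lw K n, [R.B (w.take i)] (1/2)^w.sum ≤ C ρ ^ i`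
(`sum_lw_add`, `sum_half`, `R.prob`).  Choose `I0` with `C ρ ^ I0 / (1 - ρ) ≤ 1/4`, `K0` with `th K0 ^ n ≥ 3/4` (`1 - n 2 ^ -K0`), `r` with
`Y r ≥ 1/2` for `K = K0`; then `GS_mono` and periodicity.
-/

namespace Pool.Agent.helper49.PDR

open Finset Pool.Agent.helper14.EX1

theorem Sta_th {n K : ℕ} (hK : n + 2 ≤ K) : 3 / 4 ≤ th K ^ n := by
  have h0 : (0 : ℝ) < (1 / 2) ^ K := by positivity
  have h1 : ((1 : ℝ) / 2) ^ K ≤ 1 := pow_le_one₀ (by norm_num) (by norm_num)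
  have h2 : (1 : ℝ) + n * (-(1 / 2) ^ K) ≤ (1 + (-(1 / 2) ^ K)) ^ n :=
    one_add_mul_le_pow (by linarith) n
  have h3 : ((1 : ℝ) / 2) ^ K ≤ (1 / 2) ^ (n + 2) :=
    pow_le_pow_of_le_one (by norm_num) (by norm_num) hK
  have h4 : (n : ℝ) ≤ 2 ^ n := by exact_mod_cast Nat.lt_two_pow_self.le
  have h5 : (n : ℝ) * (1 / 2) ^ K ≤ 1 / 4 := by
    calc (n : ℝ) * (1 / 2) ^ K ≤ 2 ^ n * (1 / 2) ^ (n + 2) := by
          refine mul_le_mul h4 h3 h0.le (by positivity)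
      _ = 1 / 4 := by
          rw [pow_add, ← mul_assoc, ← mul_pow]
          norm_num
  unfold th
  have h6 : (1 : ℝ) - (1 / 2) ^ K = 1 + (-(1 / 2) ^ K) := by ring
  rw [h6]
  linarith

theorem Sta_th_le (K m : ℕ) : th K ^ m ≤ 1 := by
  refine pow_le_one₀ ?_ (th_lt_one K).le
  unfold th
  have h1 : ((1 : ℝ) / 2) ^ K ≤ 1 := pow_le_one₀ (by norm_num) (by norm_num)
  linarith

open Classical in
/-- The probability that the first `i` letters are exceptional. -/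
theorem Sta_pref {C ρ : ℝ} (R : Rule C ρ) (K n i : ℕ) (hi : i ≤ n) :
    ∑ v ∈ lw K n, (if R.B (v.take i) then (1 / 2 : ℝ) ^ v.sum else 0) ≤ C * ρ ^ i := by
  obtain ⟨m, rfl⟩ := Nat.exists_eq_add_of_le hi
  rw [sum_lw_add]
  have h1 : ∀ u ∈ lw K i, ∑ v ∈ lw K m,
      (if R.B ((u ++ v).take i) then (1 / 2 : ℝ) ^ (u ++ v).sum else 0) =
      (if R.B u then (1 / 2 : ℝ) ^ u.sum else 0) * th K ^ m := by
    intro u hu
    have hl : u.length = i := (mem_lw.1 hu).1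
    rw [← sum_half, mul_sum]
    refine sum_congr rfl fun v _ => ?_
    have h2 : (u ++ v).take i = u := by
      rw [← hl]
      exact List.take_left
    rw [h2, List.sum_append, pow_add]
    split_ifs
    · rfl
    · rw [zero_mul]
  rw [sum_congr rfl h1, ← sum_mul]
  have h3 := R.prob K i
  have h4 : (0 : ℝ) ≤ ∑ u ∈ lw K i, (if R.B u then (1 / 2 : ℝ) ^ u.sum else 0) := by
    refine sum_nonneg fun u _ => ?_
    split_ifs
    · positivity
    · exact le_rfl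
  calc (∑ u ∈ lw K i, (if R.B u then (1 / 2 : ℝ) ^ u.sum else 0)) * th K ^ m
      ≤ (∑ u ∈ lw K i, (if R.B u then (1 / 2 : ℝ) ^ u.sum else 0)) * 1 :=
        mul_le_mul_of_nonneg_left (Sta_th_le K m) h4
    _ ≤ C * ρ ^ i := by
        rw [mul_one]
        convert h3

open Classical in
/-- The probability of the good words. -/
theorem Sta_good {C ρ : ℝ} (R : Rule C ρ) (i0 K n : ℕ) :
    th K ^ n - ∑ i ∈ Icc i0 n, C * ρ ^ i ≤
      ∑ v ∈ lw K n, (if Good R i0 v then (1 / 2 : ℝ) ^ v.sum else 0) := by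
  have h1 : ∑ i ∈ Icc i0 n, ∑ v ∈ lw K n, (if R.B (v.take i) then (1 / 2 : ℝ) ^ v.sum else 0) ≤
      ∑ i ∈ Icc i0 n, C * ρ ^ i :=
    sum_le_sum fun i hi => Sta_pref R K n i (mem_Icc.1 hi).2
  have h2 : th K ^ n ≤ ∑ v ∈ lw K n, (if Good R i0 v then (1 / 2 : ℝ) ^ v.sum else 0) +
      ∑ i ∈ Icc i0 n, ∑ v ∈ lw K n, (if R.B (v.take i) then (1 / 2 : ℝ) ^ v.sum else 0) := by
    rw [sum_comm, ← sum_half, ← sum_add_distrib]
    refine sum_le_sum fun v hv => ?_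
    have hl : v.length = n := (mem_lw.1 hv).1
    have hnn : ∀ i ∈ Icc i0 n, (0 : ℝ) ≤ (if R.B (v.take i) then (1 / 2 : ℝ) ^ v.sum else 0) := by
      intro i _
      split_ifs
      · positivity
      · exact le_rfl
    by_cases hg : Good R i0 v
    · rw [if_pos hg]
      have := sum_nonneg hnn
      linarith
    · rw [if_neg hg, zero_add]
      unfold Good at hg
      push Not at hg
      obtain ⟨i, hi1, hi2, hi3⟩ := hg
      have hB : R.B (v.take i) := R.split [] (v.take i) R.nil (by rwa [List.nil_append])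
      have h3 := single_le_sum hnn (mem_Icc.2 ⟨hi1, hl ▸ hi2⟩)
      rwa [if_pos hB] at h3
  linarith

theorem Sta_geom {C ρ : ℝ} (hC : 0 ≤ C) (hρ : 0 < ρ) (hρ1 : ρ < 1) {I0 i0 n : ℕ} (hI : I0 ≤ i0)
    (h : C * ρ ^ I0 / (1 - ρ) ≤ 1 / 4) : ∑ i ∈ Icc i0 n, C * ρ ^ i ≤ 1 / 4 := by
  have h1 : ∑ i ∈ Icc i0 n, C * ρ ^ i ≤ ∑ j ∈ range (n + 1), C * ρ ^ I0 * ρ ^ j := by
    have h2 : ∑ i ∈ Icc i0 n, C * ρ ^ i ≤ ∑ i ∈ (range (n + 1)).image (fun j => I0 + j),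
        C * ρ ^ i := by
      refine sum_le_sum_of_subset_of_nonneg ?_ fun i _ _ => by positivity
      intro i hi
      rw [mem_Icc] at hi
      rw [mem_image]
      exact ⟨i - I0, mem_range.2 (by omega), by omega⟩
    rw [sum_image (fun a _ b _ hab => Nat.add_left_cancel hab)] at h2
    refine h2.trans (le_of_eq ?_)
    refine sum_congr rfl fun j _ => ?_
    rw [pow_add, mul_assoc]
  have h1' : ∑ j ∈ range (n + 1), C * ρ ^ I0 * ρ ^ j =
      C * ρ ^ I0 * ∑ j ∈ range (n + 1), ρ ^ j := (mul_sum _ _ _).symm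
  rw [h1'] at h1
  have h3 : ∑ j ∈ range (n + 1), ρ ^ j ≤ (1 - ρ)⁻¹ := by
    have h5 := geom_sum_mul_neg ρ (n + 1)
    have h6 : (0 : ℝ) < ρ ^ (n + 1) := by positivity
    rw [inv_eq_one_div, le_div_iff₀ (by linarith), h5]
    linarith
  have h4 : (0 : ℝ) ≤ C * ρ ^ I0 := by positivity
  calc ∑ i ∈ Icc i0 n, C * ρ ^ i ≤ C * ρ ^ I0 * ∑ j ∈ range (n + 1), ρ ^ j := h1
    _ ≤ C * ρ ^ I0 * (1 - ρ)⁻¹ := mul_le_mul_of_nonneg_left h3 h4
    _ ≤ 1 / 4 := by rwa [← div_eq_mul_inv]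

theorem start {C ρ : ℝ} (hC : 0 ≤ C) (hρ : 0 < ρ) (hρ1 : ρ < 1) :
    ∃ I0 : ℕ, ∀ (R : Rule C ρ) (i0 : ℕ), I0 ≤ i0 → ∀ n : ℕ, ∃ K0 : ℕ, ∃ r : ℤ, ∀ K, K0 ≤ K →
      ∀ x : ℤ, (3 : ℤ) ^ n ∣ x - r →
      1 / 2 ≤ ∑ u ∈ GS R i0 K n, (if Ala x u then ww u else 0) := by
  classical
  obtain ⟨I0, hI0⟩ : ∃ I0 : ℕ, C * ρ ^ I0 / (1 - ρ) ≤ 1 / 4 := by
    have h1 : Filter.Tendsto (fun m : ℕ => C * ρ ^ m / (1 - ρ)) Filter.atTop (nhds 0) := by
      have h2 := (tendsto_pow_atTop_nhds_zero_of_lt_one hρ.le hρ1).const_mul C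
      have h3 := h2.div_const (1 - ρ)
      rwa [mul_zero, zero_div] at h3
    exact (h1.eventually (ge_mem_nhds (by norm_num : (0 : ℝ) < 1 / 4))).exists
  refine ⟨I0, fun R i0 hi0 n => ⟨n + 2, ?_⟩⟩
  have hY : ∀ x : ℤ, ∑ u ∈ GS R i0 (n + 2) n, (if Ala x u then ww u else 0) =
      ∑ v ∈ lw (n + 2) n, if Good R i0 v ∧ Ala x v then ww v * (fun _ : ℤ => (1 : ℝ)) (nd x v)
        else 0 := by
    intro x
    unfold GS
    rw [sum_filter]
    refine sum_congr rfl fun v _ => ?_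
    by_cases h1 : Good R i0 v <;> by_cases h2 : Ala x v <;> simp [h1, h2]
  have hper := per_words (n + 2) n 0 (fun v => Good R i0 v) (g := fun _ _ => (1 : ℝ))
    (fun _ => per_const 0 1)
  have havg := avg_words (n + 2) n 0 (fun v => Good R i0 v) (g := fun _ _ => (1 : ℝ))
    (fun _ => per_const 0 1)
  have hone : avg 0 (fun _ : ℤ => (1 : ℝ)) = 1 := by simp [avg]
  have hgood := Sta_good R i0 (n + 2) n
  have hth := Sta_th (le_refl (n + 2))
  have hgeo := Sta_geom (n := n) hC hρ hρ1 hi0 hI0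
  have hge : 1 / 2 ≤ avg (0 + n) (fun x => ∑ u ∈ GS R i0 (n + 2) n,
      (if Ala x u then ww u else 0)) := by
    have h1 : avg (0 + n) (fun x => ∑ u ∈ GS R i0 (n + 2) n, (if Ala x u then ww u else 0)) =
        ∑ v ∈ lw (n + 2) n, (if Good R i0 v then (1 / 2 : ℝ) ^ v.sum else 0) := by
      simp only [hY]
      refine havg.trans ?_
      refine sum_congr rfl fun v _ => ?_
      rw [hone, mul_one]
    rw [h1]
    linarith
  obtain ⟨r, hr⟩ : ∃ r : ℕ, 1 / 2 ≤ ∑ u ∈ GS R i0 (n + 2) n,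
      (if Ala (r : ℤ) u then ww u else 0) := by
    by_contra hcon
    push Not at hcon
    have hp : (0 : ℝ) < 3 ^ (0 + n) := by positivity
    unfold avg at hge
    rw [le_div_iff₀ hp] at hge
    have h2 : ∑ x ∈ range (3 ^ (0 + n)), (∑ u ∈ GS R i0 (n + 2) n,
        (if Ala (x : ℤ) u then ww u else 0)) < ∑ x ∈ range (3 ^ (0 + n)), (1 / 2 : ℝ) :=
      sum_lt_sum_of_nonempty ⟨0, mem_range.2 (by positivity)⟩ fun x _ => hcon x
    rw [sum_const, card_range, nsmul_eq_mul] at h2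
    push_cast at h2
    linarith
  refine ⟨r, fun K hK x hx => hr.trans ?_⟩
  have h3 : ∑ u ∈ GS R i0 (n + 2) n, (if Ala (r : ℤ) u then ww u else 0) =
      ∑ u ∈ GS R i0 (n + 2) n, (if Ala x u then ww u else 0) := by
    rw [hY, hY]
    rw [zero_add] at hper
    exact (per_dvd hper hx).symm
  rw [h3]
  refine sum_le_sum_of_subset_of_nonneg (GS_mono hK) fun u _ _ => ?_
  split_ifs
  · exact (ww_pos u).le
  · exact le_rfl

end Pool.Agent.helper49.PDR
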