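import Pool.Agent.helper49.PDR.VisU
import Pool.Agent.helper49.PDR.Av

/-!
# PDR-VisL: the expected number of visits is at least half of the probability to pass (letters have no memory)

`vis_half`: induction on `n` for all states `(l, A)` with `2 ^ A < X 3 ^ l`.  `n = 0`: the right hand side is `0`.  `n + 1`: let `q` be the sum on
the right.  `q (n+1) l A = ∑ k, (1/2)^k q n (l+1) (A+k)` (`sum_lw_succ`).  For the letters with `2 ^ (A+k) < X 3 ^ (l+1)`: induction.  If the other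
letters `≤ K` exist, let `b` be the smallest one: `q ≤ 1` for them, total at most `∑_{k ≥ b} (1/2)^k ≤ 2 (1/2) ^ b`, and
`(l+1, A+b)` is in the strip (`2 ^ (A + b - 1) < X 3 ^ (l+1)` by minimality, or `b = 1` and `2 ^ A < X 3 ^ l`), so `vis K X n (l+1) (A+b) ≥ 1`.
`vis_low`: `X1 = 2 ^ Am + 1`; for given `X` choose `n` with `X 3 ^ (l + n) ≤ 2 ^ (1.9 n)` and `C ρ ^ n ≤ 1/4` (`cheN`, `e = 1/10`), then `K0` with
`th K0 ^ n ≥ 3/4` (`sum_half`): the sum is at least `3/4 - 1/4`.
-/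

namespace Pool.Agent.helper49.PDR

open Finset Pool.Agent.helper14.EX1

open Classical in
theorem vis_half (K : ℕ) {X : ℝ} (hX : 0 < X) (n l A : ℕ) (h : (2 : ℝ) ^ A < X * 3 ^ l) :
    (1 / 2) * ∑ v ∈ lw K n,
      (if X * 3 ^ (l + n) ≤ (2 : ℝ) ^ (A + v.sum) then (1 / 2 : ℝ) ^ v.sum else 0) ≤
      vis K X n l A := by
  have hq1 : ∀ (n l A : ℕ), ∑ v ∈ lw K n,
      (if X * 3 ^ (l + n) ≤ (2 : ℝ) ^ (A + v.sum) then (1 / 2 : ℝ) ^ v.sum else 0) ≤ 1 := by
    intro n l A
    have h1 := CheN_sum (y := 1 / 2) (by norm_num) (by norm_num) K n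
    refine le_trans (sum_le_sum fun v _ => ?_) (h1.trans (by norm_num))
    split_ifs
    · exact le_rfl
    · positivity
  have hrec : ∀ (n l A : ℕ), ∑ v ∈ lw K (n + 1),
      (if X * 3 ^ (l + (n + 1)) ≤ (2 : ℝ) ^ (A + v.sum) then (1 / 2 : ℝ) ^ v.sum else 0) =
      ∑ B ∈ Icc 1 K, (1 / 2 : ℝ) ^ B * ∑ v ∈ lw K n,
        (if X * 3 ^ (l + 1 + n) ≤ (2 : ℝ) ^ (A + B + v.sum) then (1 / 2 : ℝ) ^ v.sum else 0) := by
    intro n l A
    rw [sum_lw_succ]
    refine sum_congr rfl fun B _ => ?_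
    rw [mul_sum]
    refine sum_congr rfl fun v _ => ?_
    have e1 : l + 1 + n = l + (n + 1) := by ring
    have e2 : A + B + v.sum = A + (B :: v).sum := by
      rw [List.sum_cons]
      ring
    rw [e1, e2]
    by_cases hs : X * 3 ^ (l + (n + 1)) ≤ (2 : ℝ) ^ (A + (B :: v).sum)
    · rw [if_pos hs, if_pos hs, List.sum_cons, pow_add]
    · rw [if_neg hs, if_neg hs, mul_zero]
  induction n generalizing l A with
  | zero =>
    have hn : ¬ X * 3 ^ l ≤ (2 : ℝ) ^ A := not_le.2 h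
    have h0 := vis_nn K X 0 l A
    simp only [lw, sum_singleton, List.sum_nil, add_zero, if_neg hn, mul_zero]
    exact h0
  | succ n ih =>
    have hn : ¬ strip X l A := fun hs => absurd hs.1 (not_le.2 h)
    rw [hrec]
    simp only [vis]
    rw [if_neg hn, zero_add, mul_sum]
    set q : ℕ → ℝ := fun B => ∑ v ∈ lw K n,
      (if X * 3 ^ (l + 1 + n) ≤ (2 : ℝ) ^ (A + B + v.sum) then (1 / 2 : ℝ) ^ v.sum else 0) with hq
    change ∑ B ∈ Icc 1 K, 1 / 2 * ((1 / 2 : ℝ) ^ B * q B) ≤ _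
    -- the letters which cross
    set P : ℕ → Prop := fun B => X * 3 ^ (l + 1) ≤ 2 ^ (A + B) with hP
    have hqn : ∀ B, q B ≤ 1 := fun B => hq1 n (l + 1) (A + B)
    rw [← sum_filter_add_sum_filter_not (Icc 1 K) P, ← sum_filter_add_sum_filter_not (Icc 1 K) P
      (fun B => (1 / 2 : ℝ) ^ B * vis K X n (l + 1) (A + B))]
    apply add_le_add
    · rcases (Finset.filter P (Icc 1 K)).eq_empty_or_nonempty with he | hne
      · rw [he]
        simp
      · obtain ⟨B0, hB0, hmin⟩ : ∃ B0 ∈ Finset.filter P (Icc 1 K), ∀ B ∈ Finset.filter P (Icc 1 K), B0 ≤ B := by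
          refine ⟨_, Finset.min'_mem _ hne, fun B hB => Finset.min'_le _ B hB⟩
        obtain ⟨hB0', hPB0⟩ := mem_filter.1 hB0
        obtain ⟨hB01, hB0K⟩ := mem_Icc.1 hB0'
        have hsub : Finset.filter P (Icc 1 K) ⊆ Icc B0 K := by
          intro B hB
          exact mem_Icc.2 ⟨hmin B hB, (mem_Icc.1 (mem_filter.1 hB).1).2⟩
        have hstrip : strip X (l + 1) (A + B0) := by
          refine ⟨hPB0, ?_⟩
          have hlt : (2 : ℝ) ^ (A + (B0 - 1)) < X * 3 ^ (l + 1) := by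
            rcases Nat.eq_or_lt_of_le hB01 with h1 | h1
            · rw [← h1]
              have h3 : X * 3 ^ (l + 1) = 3 * (X * 3 ^ l) := by
                rw [pow_succ]
                ring
              rw [h3]
              have : (0 : ℝ) < X * 3 ^ l := by positivity
              simp only [Nat.sub_self, add_zero]
              linarith
            · by_contra hcon
              have hPB : P (B0 - 1) := not_lt.1 hcon
              have := hmin (B0 - 1) (mem_filter.2 ⟨mem_Icc.2 ⟨by omega, by omega⟩, hPB⟩)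
              omega
          have e1 : (2 : ℝ) ^ (A + B0) = 2 * 2 ^ (A + (B0 - 1)) := by
            rw [show A + B0 = (A + (B0 - 1)) + 1 by omega, pow_succ]
            ring
          rw [e1]
          linarith
        have hone : 1 ≤ vis K X n (l + 1) (A + B0) := by
          rw [VisU_ev]
          exact Pool.Agent.helper82.PD.ev_one K n hstrip
        calc ∑ B ∈ Finset.filter P (Icc 1 K), 1 / 2 * ((1 / 2 : ℝ) ^ B * q B)
            ≤ ∑ B ∈ Finset.filter P (Icc 1 K), (1 / 2 : ℝ) ^ B * (1 / 2) := by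
              apply sum_le_sum
              intro B _
              have h0 : (0 : ℝ) ≤ (1 / 2 : ℝ) ^ B := by positivity
              have := mul_le_mul_of_nonneg_left (hqn B) h0
              linarith
          _ ≤ ∑ B ∈ Icc B0 K, (1 / 2 : ℝ) ^ B * (1 / 2) :=
              sum_le_sum_of_subset_of_nonneg hsub fun _ _ _ => by positivity
          _ = (∑ B ∈ Icc B0 K, (1 / 2 : ℝ) ^ B) * (1 / 2) := by rw [sum_mul]
          _ ≤ (1 / 2) ^ B0 := by
              have := Pool.Agent.helper82.PD.Ev_tail B0 K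
              linarith
          _ ≤ (1 / 2 : ℝ) ^ B0 * vis K X n (l + 1) (A + B0) := by
              have h0 : (0 : ℝ) ≤ (1 / 2 : ℝ) ^ B0 := by positivity
              nlinarith
          _ ≤ _ := by
              apply Finset.single_le_sum (f := fun B => (1 / 2 : ℝ) ^ B * vis K X n (l + 1) (A + B))
                (fun B _ => mul_nonneg (by positivity) (vis_nn _ _ _ _ _)) hB0
    · apply sum_le_sum
      intro B hB
      have h1 := ih (l + 1) (A + B) (not_le.1 (mem_filter.1 hB).2)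
      have h0 : (0 : ℝ) ≤ (1 / 2 : ℝ) ^ B := by positivity
      have h2 := mul_le_mul_of_nonneg_left h1 h0
      calc 1 / 2 * ((1 / 2 : ℝ) ^ B * q B) = (1 / 2 : ℝ) ^ B * (1 / 2 * q B) := by ring
        _ ≤ _ := h2

theorem vis_low (l Am : ℕ) : ∃ X1 : ℝ, 1 ≤ X1 ∧ ∀ X : ℝ, X1 ≤ X → ∃ n K0 : ℕ, ∀ K, K0 ≤ K →
    ∀ A, A ≤ Am → 1 / 4 ≤ vis K X n l A := by
  refine ⟨2 ^ Am + 1, by
    have : (0 : ℝ) < 2 ^ Am := by positivity
    linarith, fun X hX => ?_⟩
  have hX0 : 0 < X := by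
    have : (0 : ℝ) < 2 ^ Am := by positivity
    linarith
  set T : ℝ := Real.sqrt (X * 3 ^ l) with hT
  have hT0 : 0 ≤ T := Real.sqrt_nonneg _
  obtain ⟨n, hn⟩ := exists_pow_lt_of_lt_one (show (0 : ℝ) < 1 / (4 * (T + 1)) by positivity)
    (show (19 / 20 : ℝ) < 1 by norm_num)
  refine ⟨n, n + 2, fun K hK A hA => ?_⟩
  have h3l : (1 : ℝ) ≤ 3 ^ l := one_le_pow₀ (by norm_num)
  have hlt : (2 : ℝ) ^ A < X * 3 ^ l := by
    have h1 : (2 : ℝ) ^ A ≤ 2 ^ Am := pow_le_pow_right₀ (by norm_num) hA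
    nlinarith
  rw [VisU_ev]
  refine le_trans ?_ (Pool.Agent.helper82.PD.ev_low K hX0 n l A hlt)
  have h1 : 3 / 4 ≤ th K ^ n := by
    have hp : (1 / 2 : ℝ) ^ K ≤ 1 / 2 ^ (n + 2) := by
      rw [one_div_pow]
      exact one_div_le_one_div_of_le (by positivity) (pow_le_pow_right₀ (by norm_num) hK)
    have hb := one_add_mul_le_pow (a := -(1 / 2 : ℝ) ^ K) (by
      have : (1 / 2 : ℝ) ^ K ≤ 1 := pow_le_one₀ (by norm_num) (by norm_num)
      linarith) n
    have hth : th K = 1 + -(1 / 2 : ℝ) ^ K := by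
      unfold th
      ring
    rw [hth]
    refine le_trans ?_ hb
    have hn2 : (n : ℝ) ≤ 2 ^ n := by exact_mod_cast Nat.lt_two_pow_self.le
    have : (n : ℝ) * (1 / 2 : ℝ) ^ K ≤ 1 / 4 := by
      calc (n : ℝ) * (1 / 2 : ℝ) ^ K ≤ 2 ^ n * (1 / 2 ^ (n + 2)) :=
            mul_le_mul hn2 hp (by positivity) (by positivity)
        _ = 1 / 4 := by
          rw [pow_add]
          field_simp
          norm_num
    linarith
  have h2 : (19 / 20 : ℝ) ^ n * Real.sqrt (X * 3 ^ l / 2 ^ A) ≤ 1 / 4 := by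
    have e1 : Real.sqrt (X * 3 ^ l / 2 ^ A) ≤ T := by
      apply Real.sqrt_le_sqrt
      apply div_le_self (by positivity)
      exact one_le_pow₀ (by norm_num)
    have e2 : (19 / 20 : ℝ) ^ n * Real.sqrt (X * 3 ^ l / 2 ^ A) ≤ 1 / (4 * (T + 1)) * T :=
      mul_le_mul hn.le e1 (Real.sqrt_nonneg _) (by positivity)
    refine e2.trans ?_
    rw [div_mul_eq_mul_div, one_mul, div_le_div_iff₀ (by positivity) (by norm_num)]
    linarith
  linarith

end Pool.Agent.helper49.PDR
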