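import Pool.Agent.helper49.PDR.Stp
import Pool.Agent.helper49.PDR.Sta
import Pool.Agent.helper49.PDR.VisL

/-!
# PDR-Strip: the final theorem of part R

`D` from `step_low 2`, `M` from `vis_le`, `i0 = I0` from `start`.  Choose `n0 ≥ 100`, `10 i0 ≤ 9 n0`, with `M 2 ^ i0 D * 2 / n0 ≤ 1/16`.  `r`, `K0` from `start`
for `n = n0`; `X0` from `vis_low n0 (3 n0)`.  For `X ≥ X0` take `n`, `K0'` from `vis_low`, `K = max K0 K0'`, `L = n0 + n`.  For `n0 ≤ l ≤ L` put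
`U l = ∑ j ∈ range l, ∑ u ∈ GS j, [Ala x u, strip X j u.sum] ww u + ∑ u ∈ GS l, [Ala x u] ww u * vis K X (L - l) l u.sum`.
`U n0 ≥ (1/2) (1/4)` (`R.hi`: `u.sum ≤ 3 n0` for `u ∈ GS n0`).  `U (l+1) ≥ U l - M 2 ^ i0 D / l ^ 2`: `vis K X (L - l) l A = [strip] + nx K h A` with
`h = vis K X (L - l - 1) (l + 1)`, `step_low` for `h / M` (`GH_true`).  `∑_{l ≥ n0} 1 / l ^ 2 ≤ 2 / n0`.  So `U L ≥ 1/16`, and
`U L = ∑ j ∈ range (L + 1), ∑ u ∈ GS j, [Ala, strip] ww u` is the sum over `W = ` the union of these words (disjoint for different lengths).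
-/

namespace Pool.Agent.helper49.PDR

open Finset Pool.Agent.helper14.EX1

open Classical in
/-- The mass of the good words of length `l` which end in the strip. -/
noncomputable def Strip_m {C ρ : ℝ} (R : Rule C ρ) (i0 K : ℕ) (X : ℝ) (x : ℤ) (l : ℕ) : ℝ :=
  ∑ u ∈ GS R i0 K l, if Ala x u then ww u * (if strip X l u.sum then 1 else 0) else 0

/-- The mass of the good words of length `l`, weighted with the expected number of visits. -/
noncomputable def Strip_v {C ρ : ℝ} (R : Rule C ρ) (i0 K : ℕ) (X : ℝ) (x : ℤ) (n l : ℕ) : ℝ :=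
  ∑ u ∈ GS R i0 K l, if Ala x u then ww u * vis K X n l u.sum else 0

variable {C ρ : ℝ}

theorem Strip_v_zero (R : Rule C ρ) (i0 K : ℕ) (X : ℝ) (x : ℤ) (l : ℕ) :
    Strip_v R i0 K X x 0 l = Strip_m R i0 K X x l := rfl

theorem Strip_v_succ (R : Rule C ρ) (i0 K : ℕ) (X : ℝ) (x : ℤ) (n l : ℕ) :
    Strip_v R i0 K X x (n + 1) l = Strip_m R i0 K X x l +
      ∑ u ∈ GS R i0 K l, (if Ala x u then ww u * nx K (vis K X n (l + 1)) u.sum else 0) := by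
  unfold Strip_v Strip_m
  rw [← sum_add_distrib]
  refine sum_congr rfl fun u _ => ?_
  by_cases h : Ala x u
  · rw [if_pos h, if_pos h, if_pos h, ← mul_add]
    rfl
  · rw [if_neg h, if_neg h, if_neg h, add_zero]

theorem Strip_nx (K : ℕ) (f : ℕ → ℝ) (M : ℝ) (A : ℕ) :
    nx K (fun B => f B / M) A = nx K f A / M := by
  unfold nx
  rw [sum_div]
  refine sum_congr rfl fun k _ => ?_
  ring

theorem Strip_scale (s : Finset (List ℕ)) (x : ℤ) (a b : List ℕ → ℝ) (M : ℝ) :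
    ∑ i ∈ s, (if Ala x i then a i * (b i / M) else 0) =
      (∑ i ∈ s, if Ala x i then a i * b i else 0) / M := by
  rw [sum_div]
  refine sum_congr rfl fun i _ => ?_
  split_ifs
  · ring
  · rw [zero_div]

/-- One step. -/
theorem Strip_step (R : Rule C ρ) {i0 K l n : ℕ} {D M X : ℝ} {x : ℤ} (hM : 1 ≤ M) (hX : 0 < X)
    (hD : ∀ (h : ℕ → ℝ), (∀ A, 0 ≤ h A) → (∀ A, h A ≤ 1) →
      ∑ u ∈ GS R i0 K l, (if Ala x u then ww u * nx K h u.sum else 0) ≤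
        ∑ w ∈ GS R i0 K (l + 1), (if Ala x w then ww w * h w.sum else 0) +
          2 ^ i0 * (D / (l : ℝ) ^ 2))
    (hV : ∀ (K : ℕ) (X : ℝ) (n l A : ℕ), 0 < X → vis K X n l A ≤ M) :
    Strip_v R i0 K X x (n + 1) l ≤ Strip_m R i0 K X x l + Strip_v R i0 K X x n (l + 1) +
      M * (2 ^ i0 * D) / (l : ℝ) ^ 2 := by
  have hM0 : 0 < M := by linarith
  have h1 := hD (fun B => vis K X n (l + 1) B / M)
    (fun A => div_nonneg (vis_nn K X n (l + 1) A) hM0.le)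
    (fun A => (div_le_one hM0).2 (hV K X n (l + 1) A hX))
  simp only [Strip_nx] at h1
  rw [Strip_scale, Strip_scale] at h1
  have h2 : (∑ u ∈ GS R i0 K l, if Ala x u then ww u * nx K (vis K X n (l + 1)) u.sum else 0) / M ≤
      (Strip_v R i0 K X x n (l + 1)) / M + 2 ^ i0 * (D / (l : ℝ) ^ 2) := h1
  rw [div_le_iff₀ hM0, add_mul, div_mul_cancel₀ _ hM0.ne'] at h2
  rw [Strip_v_succ]
  have h3 : 2 ^ i0 * (D / (l : ℝ) ^ 2) * M = M * (2 ^ i0 * D) / (l : ℝ) ^ 2 := by ring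
  rw [h3] at h2
  linarith

theorem Strip_inv {l : ℕ} (hl : 1 ≤ l) :
    1 / (l : ℝ) ^ 2 + 2 / ((l : ℝ) + 1) ≤ 2 / (l : ℝ) := by
  have h1 : (1 : ℝ) ≤ l := by exact_mod_cast hl
  rw [div_add_div _ _ (by positivity) (by positivity), div_le_div_iff₀ (by positivity) (by positivity)]
  nlinarith [mul_nonneg (mul_nonneg (by linarith : (0 : ℝ) ≤ l) (by linarith : (0 : ℝ) ≤ l))
    (by linarith : (0 : ℝ) ≤ (l : ℝ) - 1), mul_nonneg (by linarith : (0 : ℝ) ≤ l)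
    (by linarith : (0 : ℝ) ≤ (l : ℝ) - 1)]

theorem Strip_tel (R : Rule C ρ) {i0 K n0 : ℕ} {D M X : ℝ} {x : ℤ} (hD0 : 0 ≤ D) (hM : 1 ≤ M)
    (hX : 0 < X) (hn : 1 ≤ n0)
    (hD : ∀ l, n0 ≤ l → ∀ (h : ℕ → ℝ), (∀ A, 0 ≤ h A) → (∀ A, h A ≤ 1) →
      ∑ u ∈ GS R i0 K l, (if Ala x u then ww u * nx K h u.sum else 0) ≤
        ∑ w ∈ GS R i0 K (l + 1), (if Ala x w then ww w * h w.sum else 0) +
          2 ^ i0 * (D / (l : ℝ) ^ 2))
    (hV : ∀ (K : ℕ) (X : ℝ) (n l A : ℕ), 0 < X → vis K X n l A ≤ M) (n : ℕ) :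
    ∀ l, n0 ≤ l → Strip_v R i0 K X x n l ≤
      ∑ j ∈ Ico l (l + n + 1), Strip_m R i0 K X x j + M * (2 ^ i0 * D) * (2 / (l : ℝ)) := by
  have hc : 0 ≤ M * (2 ^ i0 * D) := by positivity
  induction n with
  | zero =>
    intro l _
    rw [Nat.add_zero, Nat.Ico_succ_singleton, sum_singleton, Strip_v_zero]
    have : 0 ≤ M * (2 ^ i0 * D) * (2 / (l : ℝ)) := by positivity
    linarith
  | succ n ih =>
    intro l hl
    have h1 := Strip_step (n := n) R hM hX (hD l hl) hV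
    have h2 := ih (l + 1) (by omega)
    have h3 : ∑ j ∈ Ico l (l + (n + 1) + 1), Strip_m R i0 K X x j =
        Strip_m R i0 K X x l + ∑ j ∈ Ico (l + 1) (l + 1 + n + 1), Strip_m R i0 K X x j := by
      rw [sum_eq_sum_Ico_succ_bot (by omega)]
      have : l + (n + 1) + 1 = l + 1 + n + 1 := by omega
      rw [this]
    rw [h3]
    have h4 := Strip_inv (l := l) (by omega)
    have h5 := mul_le_mul_of_nonneg_left h4 hc
    rw [mul_add] at h5
    push_cast at h2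
    have h6 : M * (2 ^ i0 * D) * (1 / (l : ℝ) ^ 2) = M * (2 ^ i0 * D) / (l : ℝ) ^ 2 := by ring
    rw [h6] at h5
    linarith

theorem Strip_start (R : Rule C ρ) {i0 K n0 n : ℕ} {X : ℝ} {x : ℤ} (hi : i0 ≤ n0)
    (h1 : 1 / 2 ≤ ∑ u ∈ GS R i0 K n0, (if Ala x u then ww u else 0))
    (h2 : ∀ A, A ≤ 3 * n0 → 1 / 4 ≤ vis K X n n0 A) : 1 / 8 ≤ Strip_v R i0 K X x n n0 := by
  have h3 : (1 / 4) * ∑ u ∈ GS R i0 K n0, (if Ala x u then ww u else 0) ≤
      Strip_v R i0 K X x n n0 := by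
    unfold Strip_v
    rw [mul_sum]
    refine sum_le_sum fun u hu => ?_
    have hu' := mem_GS.1 hu
    have hQ : R.Q u := by
      have := hu'.2 n0 hi (by rw [hu'.1.1])
      rwa [List.take_of_length_le (by rw [hu'.1.1])] at this
    have hs : u.sum ≤ 3 * n0 := by
      have := R.hi u hQ
      rwa [hu'.1.1] at this
    have hv := h2 u.sum hs
    split_ifs
    · have := ww_pos u
      nlinarith
    · rw [mul_zero]
  linarith

theorem Strip_words (R : Rule C ρ) (i0 K a b : ℕ) (X : ℝ) (x : ℤ) :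
    ∃ W : Finset (List ℕ), (∀ w ∈ W, a ≤ w.length ∧ (∀ k ∈ w, 1 ≤ k) ∧ Ala x w ∧ Good R i0 w ∧
      strip X w.length w.sum) ∧ ∑ w ∈ W, ww w = ∑ j ∈ Ico a b, Strip_m R i0 K X x j := by
  classical
  refine ⟨(Ico a b).biUnion
    (fun j => (GS R i0 K j).filter (fun w => Ala x w ∧ strip X j w.sum)), ?_, ?_⟩
  · intro w hw
    rw [mem_biUnion] at hw
    obtain ⟨j, hja, hj⟩ := hw
    rw [mem_filter, mem_GS] at hj
    obtain ⟨⟨⟨hl, hk⟩, hg⟩, ha, hs⟩ := hj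
    refine ⟨by rw [hl]; exact (mem_Ico.1 hja).1, fun k hk' => (hk k hk').1, ha, hg, ?_⟩
    rw [hl]
    exact hs
  · rw [sum_biUnion]
    · refine sum_congr rfl fun j _ => ?_
      rw [sum_filter]
      unfold Strip_m
      refine sum_congr rfl fun u _ => ?_
      by_cases h1 : Ala x u
      · by_cases h2 : strip X j u.sum
        · rw [if_pos ⟨h1, h2⟩, if_pos h1, if_pos h2, mul_one]
        · rw [if_neg (fun h => h2 h.2), if_pos h1, if_neg h2, mul_zero]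
      · rw [if_neg (fun h => h1 h.1), if_neg h1]
    · intro i _ j _ hij
      show Disjoint _ _
      rw [Finset.disjoint_left]
      intro w hwi hwj
      rw [mem_filter, mem_GS] at hwi hwj
      exact hij (hwi.1.1.1.symm.trans hwj.1.1.1)

theorem strip_mass {C ρ : ℝ} (hC : 0 ≤ C) (hρ : 0 < ρ) (hρ1 : ρ < 1) (R : Rule C ρ) :
    ∃ i0 n0 : ℕ, i0 ≤ n0 ∧ ∃ r : ℤ, ∃ X0 : ℝ, 1 ≤ X0 ∧ ∀ x : ℤ, (3 : ℤ) ^ n0 ∣ x - r →
      ∀ X : ℝ, X0 ≤ X → ∃ W : Finset (List ℕ), (∀ w ∈ W, n0 ≤ w.length ∧ (∀ k ∈ w, 1 ≤ k) ∧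
        Ala x w ∧ Good R i0 w ∧ strip X w.length w.sum) ∧ 1 / 16 ≤ ∑ w ∈ W, ww w := by
  obtain ⟨D, hD0, hD⟩ := step_low 2 hC hρ hρ1
  obtain ⟨M, hM, hV⟩ := vis_le
  obtain ⟨I0, hI0⟩ := start hC hρ hρ1
  have hc : 0 ≤ M * (2 ^ I0 * D) := by positivity
  obtain ⟨n1, hn1⟩ := exists_nat_ge (32 * (M * (2 ^ I0 * D)))
  let n0 : ℕ := 100 + 2 * I0 + n1
  have hn100 : 100 ≤ n0 := by omega
  have hi : 10 * I0 ≤ 9 * n0 := by omega
  have hn0 : 32 * (M * (2 ^ I0 * D)) ≤ (n0 : ℝ) := by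
    have : (n1 : ℝ) ≤ (n0 : ℝ) := by exact_mod_cast (by omega : n1 ≤ n0)
    linarith
  obtain ⟨K0, r, hr⟩ := hI0 R I0 le_rfl n0
  obtain ⟨X1, hX1, hX⟩ := vis_low n0 (3 * n0)
  refine ⟨I0, n0, by omega, r, X1, hX1, ?_⟩
  intro x hx X hXX
  obtain ⟨n, K0', hK⟩ := hX X hXX
  have hX0 : 0 < X := by linarith
  have h1 := hr (max K0 K0') (le_max_left _ _) x hx
  have h2 := hK (max K0 K0') (le_max_right _ _)
  have h3 := Strip_start (n := n) (X := X) R (by omega) h1 h2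
  have h4 := Strip_tel (K := max K0 K0') (x := x) R hD0 hM hX0 (by omega) (by
    intro l hl h hh0 hh1
    have := hD R I0 0 (max K0 K0') l (fun _ => True) h hh0 hh1 x (hn100.trans hl) (by omega)
      (by omega)
    rwa [GH_true, GH_true] at this) hV n n0 le_rfl
  have h5 : M * (2 ^ I0 * D) * (2 / (n0 : ℝ)) ≤ 1 / 16 := by
    have hpos : (0 : ℝ) < (n0 : ℝ) := by exact_mod_cast (by omega : 0 < n0)
    rw [← mul_div_assoc, div_le_iff₀ hpos]
    linarith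
  obtain ⟨W, hW, hW'⟩ := Strip_words R I0 (max K0 K0') n0 (n0 + n + 1) X x
  refine ⟨W, hW, ?_⟩
  rw [hW']
  linarith

end Pool.Agent.helper49.PDR
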