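import Pool.Agent.helper14.EX1.Wrd

/-!
# PDR: positive lower density of the predecessor sets of the 3x+1 map, part R: definitions

Letters and words of EX1: an integer `x` stands for the node `a = 3 x + 2`; `Ala x w`: the word `w` is allowed at `x`;
`nd x w` its end; `ww w = 3 ^ length / 2 ^ sum`; `lw K n`: words of length `n`, letters in `1, …, K`.
-/

namespace Pool.Agent.helper49.PDR

open Finset Pool.Agent.helper14.EX1

open Classical in
/-- A rule: a condition `Q` on words (their sum is between `1.95` and `3` times the length) such that the extension `u ++ v` of a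
word `u` which satisfies it satisfies it unless `v` is in an exceptional class `B` of exponentially small probability. -/
structure Rule (C ρ : ℝ) where
  Q : List ℕ → Prop
  B : List ℕ → Prop
  nil : Q []
  lo : ∀ w, Q w → 39 * w.length ≤ 20 * w.sum
  hi : ∀ w, Q w → w.sum ≤ 3 * w.length
  split : ∀ u v, Q u → ¬ Q (u ++ v) → B v
  prob : ∀ K i : ℕ, ∑ v ∈ lw K i, (if B v then (1 / 2 : ℝ) ^ v.sum else 0) ≤ C * ρ ^ i

/-- All prefixes of length at least `i0` satisfy the rule. -/
def Good {C ρ : ℝ} (R : Rule C ρ) (i0 : ℕ) (w : List ℕ) : Prop :=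
  ∀ i, i0 ≤ i → i ≤ w.length → R.Q (w.take i)

open Classical in
/-- The good words of length `n`. -/
noncomputable def GS {C ρ : ℝ} (R : Rule C ρ) (i0 K n : ℕ) : Finset (List ℕ) :=
  (lw K n).filter (fun w => Good R i0 w)

open Classical in
/-- The good words of length `n` whose prefix of length `l0` satisfies an arbitrary condition `H`. -/
noncomputable def GH {C ρ : ℝ} (R : Rule C ρ) (i0 l0 : ℕ) (H : List ℕ → Prop) (K n : ℕ) :
    Finset (List ℕ) :=
  (lw K n).filter (fun w => Good R i0 w ∧ H (w.take l0))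

/-- The mean of `h` after one more letter. -/
noncomputable def nx (K : ℕ) (h : ℕ → ℝ) (A : ℕ) : ℝ := ∑ k ∈ Icc 1 K, (1 / 2 : ℝ) ^ k * h (A + k)

/-- Half of the difference between the sum over the letters which are allowed at `y` and the mean. -/
noncomputable def Del (K : ℕ) (h : ℕ → ℝ) (A : ℕ) (y : ℤ) : ℝ :=
  (1 / 2) * ∑ k ∈ Icc 1 K, ((if Al k y then (3 : ℝ) else 0) - 1) * ((1 / 2) ^ k * h (A + k))

/-- A family of functions modulo `3` with mean zero, bounded by `1`, indexed by the sum. -/
structure Fam (Δ : ℕ → ℤ → ℝ) : Prop where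
  per : ∀ A, Per 1 (Δ A)
  zero : ∀ A, ∑ d ∈ range 3, Δ A (d : ℤ) = 0
  le : ∀ A y, |Δ A y| ≤ 1

/-- The sum over all words of length `n`. -/
noncomputable def Dm (K n : ℕ) (Δ : ℕ → ℤ → ℝ) (y : ℤ) : ℝ :=
  ∑ v ∈ lw K n, if Ala y v then ww v * Δ v.sum (nd y v) else 0

/-- The state (level `l`, sum `A`) is in the strip `[X, 2 X)`. -/
def strip (X : ℝ) (l A : ℕ) : Prop := X * 3 ^ l ≤ (2 : ℝ) ^ A ∧ (2 : ℝ) ^ A < 2 * X * 3 ^ l

open Classical in
/-- The expected number of visits of the free walk to the strip, in the levels from `l` to `l + n`. -/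
noncomputable def vis (K : ℕ) (X : ℝ) : ℕ → ℕ → ℕ → ℝ
  | 0, l, A => if strip X l A then 1 else 0
  | n + 1, l, A => (if strip X l A then 1 else 0) +
      ∑ k ∈ Icc 1 K, (1 / 2 : ℝ) ^ k * vis K X n (l + 1) (A + k)

end Pool.Agent.helper49.PDR
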