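import Pool.Agent.helper49.PDR.Sb

/-!
# PDR-Gd: elementary properties of good words, the class bound for good words

`three_two`: `39 k ≤ 20 s`, `5 m ≤ k` imply `(3 ^ (k + m)) ^ 20 ≤ 3 ^ (24 k) ≤ 2 ^ (39 k) ≤ (2 ^ s) ^ 20` as `3 ^ 24 ≤ 2 ^ 39`.
`good_take`, `good_snoc`: `(w.take j).take i = w.take (min i j)`; `(u ++ [k]).take i = u.take i` for `i ≤ u.length`.
-/

namespace Pool.Agent.helper49.PDR

open Finset Pool.Agent.helper14.EX1

theorem three_two {k m s : ℕ} (h : 39 * k ≤ 20 * s) (hm : 5 * m ≤ k) : 3 ^ (k + m) ≤ 2 ^ s := by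
  have h1 : (3 ^ (k + m)) ^ 20 ≤ (2 ^ s) ^ 20 := by
    calc (3 ^ (k + m)) ^ 20 = 3 ^ ((k + m) * 20) := by rw [← pow_mul]
      _ ≤ 3 ^ (24 * k) := Nat.pow_le_pow_right (by norm_num) (by omega)
      _ = (3 ^ 24) ^ k := by rw [pow_mul]
      _ ≤ (2 ^ 39) ^ k := Nat.pow_le_pow_left (by norm_num) k
      _ = 2 ^ (39 * k) := by rw [pow_mul]
      _ ≤ 2 ^ (s * 20) := Nat.pow_le_pow_right (by norm_num) (by omega)
      _ = (2 ^ s) ^ 20 := by rw [← pow_mul]
  exact (Nat.pow_le_pow_iff_left (by norm_num)).1 h1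

variable {C ρ : ℝ}

theorem good_take {R : Rule C ρ} {i0 : ℕ} {w : List ℕ} (h : Good R i0 w) (j : ℕ) :
    Good R i0 (w.take j) := by
  intro i h0 hi
  rw [List.length_take] at hi
  rw [List.take_take, min_eq_left (by omega)]
  exact h i h0 (by omega)

theorem good_append {R : Rule C ρ} {i0 : ℕ} {u v : List ℕ} (h : Good R i0 (u ++ v)) :
    Good R i0 u := by
  have := good_take h u.length
  rwa [List.take_left] at this

/-- If `u` is good and `u ++ v` is not, then some prefix of `u ++ v` longer than `u` violates the rule. -/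
theorem exists_bad {R : Rule C ρ} {i0 : ℕ} {u v : List ℕ} (hu : Good R i0 u)
    (h : ¬ Good R i0 (u ++ v)) :
    ∃ j, u.length < j ∧ j ≤ u.length + v.length ∧ i0 ≤ j ∧ ¬ R.Q ((u ++ v).take j) := by
  unfold Good at h
  push Not at h
  obtain ⟨j, h0, h1, h2⟩ := h
  rw [List.length_append] at h1
  refine ⟨j, ?_, h1, h0, h2⟩
  by_contra hj
  push Not at hj
  apply h2
  rw [List.take_append_of_le_length hj]
  exact hu j h0 hj

theorem mem_GS {R : Rule C ρ} {i0 K n : ℕ} {w : List ℕ} :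
    w ∈ GS R i0 K n ↔ (w.length = n ∧ ∀ k ∈ w, 1 ≤ k ∧ k ≤ K) ∧ Good R i0 w := by
  classical
  unfold GS
  rw [Finset.mem_filter, mem_lw]

theorem GH_sub {R : Rule C ρ} {i0 l0 K n : ℕ} {H : List ℕ → Prop} :
    GH R i0 l0 H K n ⊆ GS R i0 K n := by
  classical
  intro w hw
  unfold GH at hw
  unfold GS
  rw [Finset.mem_filter] at hw ⊢
  exact ⟨hw.1, hw.2.1⟩

theorem GH_true {R : Rule C ρ} {i0 K n : ℕ} : GH R i0 0 (fun _ => True) K n = GS R i0 K n := by
  unfold GH GS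
  ext w
  simp only [Finset.mem_filter, and_true]

theorem GS_mono {R : Rule C ρ} {i0 K K' n : ℕ} (h : K ≤ K') : GS R i0 K n ⊆ GS R i0 K' n := by
  intro w hw
  rw [mem_GS] at hw ⊢
  exact ⟨⟨hw.1.1, fun k hk => ⟨(hw.1.2 k hk).1, (hw.1.2 k hk).2.trans h⟩⟩, hw.2⟩

end Pool.Agent.helper49.PDR
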