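import Pool.Agent.helper4.PDM.Linf
import Pool.Agent.helper49.PDR.Gd

/-!
# PDR-ClsG: the class bound for the good words of length `k ≥ i0`, EVERY integer `x`

`Pool.Agent.helper4.PDM.linf` with `G = GS R i0 K k`, `S = 8 * 2 ^ i0` (`gw_bound`), `I = ` the `A ∈ range (3 k + 1)` with `39 k ≤ 20 A` (`R.lo`, `R.hi` for
`w = w.take k`), `three_two`; `2 S + 1 ≤ 32 * 2 ^ i0`, and the sum over `I` is at most the sum over `range (3 k + 1)` (`avg_nn`).
-/

namespace Pool.Agent.helper49.PDR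

open Finset Pool.Agent.helper14.EX1

theorem cls_good {C ρ : ℝ} (R : Rule C ρ) {i0 K k m : ℕ} (hi0 : i0 ≤ k) (hm : 5 * m ≤ k)
    {g : ℕ → ℤ → ℝ} (hg : ∀ A, Per m (g A)) (hn : ∀ A y, 0 ≤ g A y) (x : ℤ) :
    ∑ u ∈ GS R i0 K k, (if Ala x u then ww u * g u.sum (nd x u) else 0) ≤
      32 * 2 ^ i0 * ∑ A ∈ range (3 * k + 1), avg m (g A) := by
  have hmem : ∀ u ∈ GS R i0 K k, u.length = k ∧ (∀ b ∈ u, 1 ≤ b) ∧ Good R i0 u ∧ R.Q u := by
    intro u hu
    obtain ⟨⟨h1, h2⟩, h3⟩ := mem_GS.1 hu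
    refine ⟨h1, fun b hb => (h2 b hb).1, h3, ?_⟩
    have h4 := h3 u.length (by omega) le_rfl
    rwa [List.take_length] at h4
  obtain ⟨I, hI⟩ : ∃ I : Finset ℕ, I = (range (3 * k + 1)).filter (fun A => 39 * k ≤ 20 * A) :=
    ⟨_, rfl⟩
  have h1 := Pool.Agent.helper4.PDM.linf (G := GS R i0 K k) (k := k) (m := m)
    (fun v hv => ⟨(hmem v hv).1, (hmem v hv).2.1⟩) (S := 8 * 2 ^ i0) (by positivity)
    (fun v hv => gw_bound R i0 (hmem v hv).2.1 (hmem v hv).2.2.1) (I := I)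
    (fun v hv => by
      obtain ⟨a1, -, -, a4⟩ := hmem v hv
      have a5 := R.lo v a4
      have a6 := R.hi v a4
      rw [hI, mem_filter, mem_range]
      rw [a1] at a5 a6
      exact ⟨by omega, a5⟩)
    (fun A hA => by
      rw [hI, mem_filter] at hA
      have a1 := three_two hA.2 hm
      exact_mod_cast a1) hg hn x
  refine h1.trans ?_
  have h2 : ∀ A, 0 ≤ avg m (g A) := fun A => avg_nn (hn A)
  have h3 : ∑ A ∈ I, avg m (g A) ≤ ∑ A ∈ range (3 * k + 1), avg m (g A) := by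
    rw [hI]
    exact sum_le_sum_of_subset_of_nonneg (filter_subset _ _) fun A _ _ => h2 A
  have h4 : (1 : ℝ) ≤ 2 ^ i0 := one_le_pow₀ one_le_two
  have h5 : 0 ≤ ∑ A ∈ I, avg m (g A) := sum_nonneg fun A _ => h2 A
  exact mul_le_mul (by linarith) h3 h5 (by positivity)

end Pool.Agent.helper49.PDR
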