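import Pool.Agent.helper49.PDR.Vie

namespace Pool.Agent.helper49.PDR

open Finset Pool.Agent.helper14.EX1

theorem Dta_fam {Δ : ℕ → ℤ → ℝ} (hΔ : Fam Δ) (s : ℕ) : Fam (fun A => Δ (s + A)) :=
  ⟨fun A => hΔ.per _, fun A => hΔ.zero _, fun A y => hΔ.le _ _⟩

theorem Dta_per (K n : ℕ) {Δ : ℕ → ℤ → ℝ} (hΔ : Fam Δ) : Per (n + 1) (fun y => |Dm K n Δ y|) := by
  classical
  have h := per_words K n 1 (fun _ => True) (g := fun v => Δ v.sum) (fun v => hΔ.per _)
  intro y
  have h2 := h y
  simp only [true_and] at h2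
  have h3 : Dm K n Δ (y + 3 ^ (n + 1)) = Dm K n Δ y := by
    unfold Dm
    rw [add_comm n 1]
    exact h2
  simp only [h3]

theorem dterm_explicit {C ρ : ℝ} (hC : 0 ≤ C) (hρ : 0 ≤ ρ) (hρ1 : ρ ≤ 1) (R : Rule C ρ)
    {i0 l0 K k k1 n : ℕ} (H : List ℕ → Prop) (hi0 : i0 ≤ k) (hkk : k ≤ k1)
    (h5 : 5 * (k1 + n) ≤ 6 * k) (hn : 5 * (n + 1) ≤ k1) (hl0 : l0 ≤ k1) {β : ℝ}
    (hβ : ∀ Δ : ℕ → ℤ → ℝ, Fam Δ → avg (n + 1) (fun y => |Dm K n Δ y|) ≤ β)
    {Δ : ℕ → ℤ → ℝ} (hΔ : Fam Δ) (x : ℤ) :
    |∑ u ∈ GH R i0 l0 H K (k1 + n), (if Ala x u then ww u * Δ u.sum (nd x u) else 0)| ≤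
      32 * 2 ^ i0 * (3 * k1 + 1) * β + n * (32 * 2 ^ i0 * (3 * k + 1) * (C * ρ ^ (k1 - k))) := by
  classical
  set F : List ℕ → ℝ := fun w => if Ala x w then ww w * Δ w.sum (nd x w) else 0 with hF
  -- the set of all extensions
  have e0 : ∑ w ∈ (lw K (k1 + n)).filter (fun w => Good R i0 (w.take k1) ∧ H (w.take l0)), F w =
      ∑ u ∈ GH R i0 l0 H K (k1 + n), F u +
      ∑ w ∈ (lw K (k1 + n)).filter (fun w => (Good R i0 (w.take k1) ∧ H (w.take l0)) ∧
        ¬ Good R i0 w), F w := by
    unfold GH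
    rw [← Finset.sum_filter_add_sum_filter_not ((lw K (k1 + n)).filter
      (fun w => Good R i0 (w.take k1) ∧ H (w.take l0))) (fun w => Good R i0 w)]
    rw [Finset.filter_filter, Finset.filter_filter]
    congr 1
    refine Finset.sum_congr ?_ fun _ _ => rfl
    ext w
    simp only [Finset.mem_filter]
    constructor
    · rintro ⟨h1, ⟨h2, h3⟩, h4⟩
      exact ⟨h1, h4, h3⟩
    · rintro ⟨h1, h2, h3⟩
      exact ⟨h1, ⟨good_take h2 k1, h3⟩, h2⟩
  -- the main term
  have e1 : ∑ w ∈ (lw K (k1 + n)).filter (fun w => Good R i0 (w.take k1) ∧ H (w.take l0)), F w =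
      ∑ u ∈ GH R i0 l0 H K k1, (if Ala x u then ww u * Dm K n (fun A => Δ (u.sum + A)) (nd x u)
        else 0) := by
    rw [Finset.sum_filter, sum_lw_add]
    unfold GH
    rw [Finset.sum_filter]
    refine Finset.sum_congr rfl fun u hu => ?_
    have hul : u.length = k1 := (mem_lw.1 hu).1
    have t1 : ∀ v : List ℕ, (u ++ v).take k1 = u := by
      intro v
      rw [← hul, List.take_left]
    have t2 : ∀ v : List ℕ, (u ++ v).take l0 = u.take l0 := by
      intro v
      rw [List.take_append_of_le_length (by omega)]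
    simp only [t1, t2]
    by_cases hg : Good R i0 u ∧ H (u.take l0)
    · simp only [if_pos hg]
      by_cases a : Ala x u
      · simp only [a, if_true]
        unfold Dm
        rw [Finset.mul_sum]
        refine Finset.sum_congr rfl fun v _ => ?_
        simp only [hF, ala_append, nd_append, ww_append, List.sum_append, a, true_and]
        split_ifs
        · ring
        · ring
      · simp only [a, if_false]
        refine Finset.sum_eq_zero fun v _ => ?_
        simp only [hF, ala_append, a, false_and, if_false]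
    · simp only [if_neg hg, Finset.sum_const_zero]
  have b1 : |∑ u ∈ GH R i0 l0 H K k1, (if Ala x u then ww u * Dm K n (fun A => Δ (u.sum + A)) (nd x u)
        else 0)| ≤ 32 * 2 ^ i0 * (3 * k1 + 1) * β := by
    calc |∑ u ∈ GH R i0 l0 H K k1, (if Ala x u then
            ww u * Dm K n (fun A => Δ (u.sum + A)) (nd x u) else 0)|
        ≤ ∑ u ∈ GH R i0 l0 H K k1, (if Ala x u then
            ww u * |Dm K n (fun A => Δ (u.sum + A)) (nd x u)| else 0) := by
          refine (Finset.abs_sum_le_sum_abs _ _).trans (Finset.sum_le_sum fun u _ => ?_)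
          split_ifs
          · rw [abs_mul, abs_of_pos (ww_pos u)]
          · simp
      _ ≤ ∑ u ∈ GS R i0 K k1, (if Ala x u then
            ww u * |Dm K n (fun A => Δ (u.sum + A)) (nd x u)| else 0) := by
          refine Finset.sum_le_sum_of_subset_of_nonneg GH_sub fun u _ _ => ?_
          split_ifs
          · exact mul_nonneg (ww_pos u).le (abs_nonneg _)
          · exact le_rfl
      _ ≤ 32 * 2 ^ i0 * ∑ A ∈ range (3 * k1 + 1), avg (n + 1)
            (fun y => |Dm K n (fun A' => Δ (A + A')) y|) :=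
          cls_good R (hi0.trans hkk) hn (g := fun A y => |Dm K n (fun A' => Δ (A + A')) y|)
            (fun A => Dta_per K n (Dta_fam hΔ A)) (fun A y => abs_nonneg _) x
      _ ≤ 32 * 2 ^ i0 * ∑ A ∈ range (3 * k1 + 1), β := by
          refine mul_le_mul_of_nonneg_left (Finset.sum_le_sum fun A _ => ?_) (by positivity)
          exact hβ _ (Dta_fam hΔ A)
      _ = 32 * 2 ^ i0 * (3 * k1 + 1) * β := by
          rw [Finset.sum_const, Finset.card_range, nsmul_eq_mul]
          push_cast
          ring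
  -- the violations
  have b2 : |∑ w ∈ (lw K (k1 + n)).filter (fun w => (Good R i0 (w.take k1) ∧ H (w.take l0)) ∧
        ¬ Good R i0 w), F w| ≤ n * (32 * 2 ^ i0 * (3 * k + 1) * (C * ρ ^ (k1 - k))) := by
    refine le_trans ?_ (vio_ext hC hρ hρ1 R (K := K) (n := n) hi0 hkk h5 x)
    calc |∑ w ∈ (lw K (k1 + n)).filter (fun w => (Good R i0 (w.take k1) ∧ H (w.take l0)) ∧
            ¬ Good R i0 w), F w|
        ≤ ∑ w ∈ (lw K (k1 + n)).filter (fun w => (Good R i0 (w.take k1) ∧ H (w.take l0)) ∧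
            ¬ Good R i0 w), (if Ala x w then ww w else 0) := by
          refine (Finset.abs_sum_le_sum_abs _ _).trans (Finset.sum_le_sum fun w _ => ?_)
          simp only [hF]
          split_ifs
          · rw [abs_mul, abs_of_pos (ww_pos w)]
            exact mul_le_of_le_one_right (ww_pos w).le (hΔ.le _ _)
          · simp
      _ ≤ _ := by
          refine Finset.sum_le_sum_of_subset_of_nonneg ?_ fun w _ _ => ?_
          · intro w hw
            rw [Finset.mem_filter] at hw ⊢
            exact ⟨hw.1, hw.2.1.1, hw.2.2⟩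
          · split_ifs
            · exact (ww_pos w).le
            · exact le_rfl
  have e2 : ∑ u ∈ GH R i0 l0 H K (k1 + n), F u =
      ∑ u ∈ GH R i0 l0 H K k1, (if Ala x u then ww u * Dm K n (fun A => Δ (u.sum + A)) (nd x u)
        else 0) - ∑ w ∈ (lw K (k1 + n)).filter (fun w => (Good R i0 (w.take k1) ∧ H (w.take l0)) ∧
        ¬ Good R i0 w), F w := by
    rw [← e1, e0]; ring
  rw [e2]
  refine (abs_sub _ _).trans ?_
  linarith

end Pool.Agent.helper49.PDR
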