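import Pool.Agent.helper94.PD.Mix
import Pool.Agent.helper49.PDR.Defs

/-!
# PDR-Mx: fine scale mixing with every polynomial rate (`Pool.Agent.helper94.PD.mix`)
-/

namespace Pool.Agent.helper49.PDR

open Finset Pool.Agent.helper14.EX1

theorem mixing (p : ℕ) : ∃ C : ℝ, 0 ≤ C ∧ ∀ (K n : ℕ) (Δ : ℕ → ℤ → ℝ), Fam Δ →
    avg (n + 1) (fun y => |Dm K n Δ y|) ≤ C / ((n : ℝ) + 1) ^ p := by
  obtain ⟨C, hC, h⟩ := Pool.Agent.helper94.PD.mix p
  refine ⟨C, hC, fun K n Δ hΔ => ?_⟩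
  refine h K n Δ ⟨fun A y => ?_, fun A y => ?_, hΔ.le⟩
  · have h1 := hΔ.per A y
    rwa [pow_one] at h1
  · have h1 := sum_shift (hΔ.per A) y
    rw [pow_one, hΔ.zero A] at h1
    rw [Finset.sum_range_succ, Finset.sum_range_succ, Finset.sum_range_one] at h1
    rw [← h1]
    push_cast
    rw [zero_add, add_comm (1 : ℤ) y, add_comm (2 : ℤ) y]

end Pool.Agent.helper49.PDR
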