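import Pool.Agent.helper49.PDR.Dta
import Pool.Agent.helper49.PDR.Mx

/-!
# PDR-Dtb: the fluctuation term is small

`t = l / 50`, `n = 2 t`, `k1 = l - 2 t`, `k = l - 4 t` (`l ≥ 100`): `k ≥ 0.92 l`, `k1 - k = 2 t`, `2 t + 1 ≥ l / 50`.  `dterm_explicit` with
`β = C' / (n + 1) ^ (p + 1)` (`mixing (p + 1)`): `(3 k1 + 1) β ≤ 4 l C' 50 ^ (p+1) / l ^ (p+1)`; and `l (3 l + 1) ρ ^ (2 t) ≤ D / l ^ p` because
`ρ ^ (2 t) ≤ ρ ^ (l / 50)` beats every power of `l` (`tendsto_pow_const_mul_const_pow_of_abs_lt_one` or similar).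
-/

namespace Pool.Agent.helper49.PDR

open Finset Pool.Agent.helper14.EX1

/-- `n ^ k * ρ ^ n` is bounded. -/
theorem Dtb_bdd (k : ℕ) {ρ : ℝ} (hρ : 0 < ρ) (hρ1 : ρ < 1) :
    ∃ M : ℝ, 0 ≤ M ∧ ∀ n : ℕ, (n : ℝ) ^ k * ρ ^ n ≤ M := by
  have h := tendsto_pow_const_mul_const_pow_of_abs_lt_one k (r := ρ) (by rwa [abs_of_pos hρ])
  obtain ⟨M, hM⟩ := h.bddAbove_range
  have hM' : ∀ n : ℕ, (n : ℝ) ^ k * ρ ^ n ≤ M := fun n => hM ⟨n, rfl⟩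
  refine ⟨M, ?_, hM'⟩
  have h1 := hM' 1
  have h2 : 0 ≤ ((1 : ℕ) : ℝ) ^ k * ρ ^ 1 := by positivity
  exact h2.trans h1

/-- Exponential against polynomial. -/
theorem exp_poly (p : ℕ) {ρ : ℝ} (hρ : 0 < ρ) (hρ1 : ρ < 1) :
    ∃ D : ℝ, 0 ≤ D ∧ ∀ l : ℕ, 1 ≤ l → (l : ℝ) * (3 * l + 1) * ρ ^ (2 * (l / 50)) ≤ D / (l : ℝ) ^ p := by
  obtain ⟨M, hM0, hM⟩ := Dtb_bdd (p + 2) hρ hρ1
  refine ⟨50 ^ p * 7550 * (M / ρ), by positivity, fun l hl => ?_⟩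
  have hl0 : (0 : ℝ) < l := by exact_mod_cast hl
  rw [le_div_iff₀ (by positivity)]
  obtain ⟨t, ht⟩ : ∃ t, t = l / 50 := ⟨_, rfl⟩
  rw [← ht]
  have h1 : (l : ℝ) ≤ 50 * ((t : ℝ) + 1) := by
    have h2 : l ≤ 50 * (t + 1) := by omega
    exact_mod_cast h2
  have ht1 : (1 : ℝ) ≤ (t : ℝ) + 1 := by
    have : (0 : ℝ) ≤ t := Nat.cast_nonneg t
    linarith
  have h3 : (3 * (l : ℝ) + 1) ≤ 151 * ((t : ℝ) + 1) := by linarith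
  have h4 : (l : ℝ) ^ p ≤ 50 ^ p * ((t : ℝ) + 1) ^ p := by
    rw [← mul_pow]
    exact pow_le_pow_left₀ hl0.le h1 p
  have h5 : ρ ^ (2 * t) ≤ ρ ^ (t + 1) / ρ := by
    rw [pow_succ, mul_div_assoc, div_self hρ.ne', mul_one]
    exact pow_le_pow_of_le_one hρ.le hρ1.le (by omega)
  have h6 : ((t : ℝ) + 1) ^ (p + 2) * ρ ^ (t + 1) ≤ M := by
    have := hM (t + 1)
    push_cast at this
    exact this
  have hr : 0 ≤ ρ ^ (2 * t) := by positivity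
  calc (l : ℝ) * (3 * l + 1) * ρ ^ (2 * t) * (l : ℝ) ^ p
      ≤ (50 * ((t : ℝ) + 1)) * (151 * ((t : ℝ) + 1)) * (ρ ^ (t + 1) / ρ) *
        (50 ^ p * ((t : ℝ) + 1) ^ p) := by gcongr
    _ = 50 ^ p * 7550 * ((((t : ℝ) + 1) ^ (p + 2) * ρ ^ (t + 1)) / ρ) := by ring
    _ ≤ 50 ^ p * 7550 * (M / ρ) := by gcongr

theorem dterm (p : ℕ) {C ρ : ℝ} (hC : 0 ≤ C) (hρ : 0 < ρ) (hρ1 : ρ < 1) :
    ∃ D : ℝ, 0 ≤ D ∧ ∀ (R : Rule C ρ) (i0 l0 K l : ℕ) (H : List ℕ → Prop) (Δ : ℕ → ℤ → ℝ),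
      Fam Δ → ∀ x : ℤ, 100 ≤ l → 10 * i0 ≤ 9 * l → 25 * l0 ≤ 24 * l →
      |∑ u ∈ GH R i0 l0 H K l, (if Ala x u then ww u * Δ u.sum (nd x u) else 0)| ≤
        2 ^ i0 * (D / (l : ℝ) ^ p) := by
  obtain ⟨C', hC', hmix⟩ := mixing (p + 1)
  obtain ⟨D₁, hD₁, hexp⟩ := exp_poly p hρ hρ1
  refine ⟨128 * C' * 50 ^ (p + 1) + 32 * C * D₁, by positivity, ?_⟩
  intro R i0 l0 K l H Δ hΔ x hl hi0 hl0
  have hlpos : (0 : ℝ) < l := by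
    have : 0 < l := by omega
    exact_mod_cast this
  obtain ⟨t, ht⟩ : ∃ t, t = l / 50 := ⟨_, rfl⟩
  have hE := hexp l (by omega)
  rw [← ht] at hE
  obtain ⟨k1, hk1⟩ : ∃ k1, k1 = l - 2 * t := ⟨_, rfl⟩
  obtain ⟨k, hk⟩ : ∃ k, k = l - 4 * t := ⟨_, rfl⟩
  have hkl : k1 + 2 * t = l := by omega
  have hsub : k1 - k = 2 * t := by omega
  have h := dterm_explicit (K := K) (k := k) (k1 := k1) (n := 2 * t) hC hρ.le hρ1.le R H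
    (i0 := i0) (l0 := l0) (by omega) (by omega) (by omega) (by omega) (by omega)
    (β := C' / (((2 * t : ℕ) : ℝ) + 1) ^ (p + 1)) (fun Δ' h' => hmix K (2 * t) Δ' h') hΔ x
  rw [hkl, hsub] at h
  refine h.trans ?_
  have h2i : (0 : ℝ) < 2 ^ i0 := by positivity
  have ek1 : (k1 : ℝ) ≤ l := by
    have : k1 ≤ l := by omega
    exact_mod_cast this
  have ek : (k : ℝ) ≤ l := by
    have : k ≤ l := by omega
    exact_mod_cast this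
  have en : ((2 * t : ℕ) : ℝ) ≤ l := by
    have : 2 * t ≤ l := by omega
    exact_mod_cast this
  have hl1 : (1 : ℝ) ≤ l := by
    have : 1 ≤ l := by omega
    exact_mod_cast this
  have hn1 : (l : ℝ) / 50 ≤ ((2 * t : ℕ) : ℝ) + 1 := by
    rw [div_le_iff₀ (by norm_num)]
    have : l ≤ (2 * t + 1) * 50 := by omega
    exact_mod_cast this
  -- the first term
  have hβ : C' / (((2 * t : ℕ) : ℝ) + 1) ^ (p + 1) ≤ C' * 50 ^ (p + 1) / (l : ℝ) ^ (p + 1) := by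
    have h3 : ((l : ℝ) / 50) ^ (p + 1) ≤ (((2 * t : ℕ) : ℝ) + 1) ^ (p + 1) :=
      pow_le_pow_left₀ (by positivity) hn1 _
    have h4 : C' * 50 ^ (p + 1) / (l : ℝ) ^ (p + 1) = C' / ((l : ℝ) / 50) ^ (p + 1) := by
      rw [div_pow, div_div_eq_mul_div]
    rw [h4]
    exact div_le_div_of_nonneg_left hC' (by positivity) h3
  have hA : 32 * 2 ^ i0 * (3 * (k1 : ℝ) + 1) * (C' / (((2 * t : ℕ) : ℝ) + 1) ^ (p + 1)) ≤
      2 ^ i0 * (128 * C' * 50 ^ (p + 1) / (l : ℝ) ^ p) := by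
    calc 32 * 2 ^ i0 * (3 * (k1 : ℝ) + 1) * (C' / (((2 * t : ℕ) : ℝ) + 1) ^ (p + 1))
        ≤ 32 * 2 ^ i0 * (4 * (l : ℝ)) * (C' * 50 ^ (p + 1) / (l : ℝ) ^ (p + 1)) := by
          gcongr
          linarith
      _ = 2 ^ i0 * (128 * C' * 50 ^ (p + 1) / (l : ℝ) ^ p) := by
          rw [pow_succ (l : ℝ) p]
          field_simp
          ring
  -- the second term
  have hB : ((2 * t : ℕ) : ℝ) * (32 * 2 ^ i0 * (3 * (k : ℝ) + 1) * (C * ρ ^ (2 * t))) ≤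
      2 ^ i0 * (32 * C * D₁ / (l : ℝ) ^ p) := by
    have hr : 0 ≤ ρ ^ (2 * t) := by positivity
    calc ((2 * t : ℕ) : ℝ) * (32 * 2 ^ i0 * (3 * (k : ℝ) + 1) * (C * ρ ^ (2 * t)))
        ≤ (l : ℝ) * (32 * 2 ^ i0 * (3 * (l : ℝ) + 1) * (C * ρ ^ (2 * t))) := by gcongr
      _ = 2 ^ i0 * (32 * C * ((l : ℝ) * (3 * l + 1) * ρ ^ (2 * t))) := by ring
      _ ≤ 2 ^ i0 * (32 * C * (D₁ / (l : ℝ) ^ p)) := by gcongr
      _ = 2 ^ i0 * (32 * C * D₁ / (l : ℝ) ^ p) := by ring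
  calc _ ≤ 2 ^ i0 * (128 * C' * 50 ^ (p + 1) / (l : ℝ) ^ p) +
        2 ^ i0 * (32 * C * D₁ / (l : ℝ) ^ p) := add_le_add hA hB
    _ = 2 ^ i0 * ((128 * C' * 50 ^ (p + 1) + 32 * C * D₁) / (l : ℝ) ^ p) := by ring

end Pool.Agent.helper49.PDR
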