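import Pool.Agent.helper49.PDR.Gd

/-!
# PDR-One: one more letter

`del_fam`: periodic by `al_congr`; `∑_{d<3} ([Al k d] 3 - 1) = 0` by `al_sum`; `|[Al k y] 3 - 1| ≤ 2`, `∑_k (1/2)^k ≤ 1`.
`step_one`: `sum_lw_snoc`; `w = u ++ [k]` with `u = w.take l`: `ww w = ww u * 3 / 2 ^ k`, `Ala x w ↔ Ala x u ∧ Al k (nd x u)`,
`w.sum = u.sum + k`, `w.take l0 = u.take l0` (as `l0 ≤ l`); `Good w` implies `Good u`.  The sum over all `u ∈ GH l` and ALL letters `k` is
`∑ ww u (nx + 2 Del)`; the second filter on the right hand side collects the words `u ++ [k]` with `u ∈ GH l` which are not good.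
-/

namespace Pool.Agent.helper49.PDR

open Finset Pool.Agent.helper14.EX1

theorem One_half_le (K : ℕ) : ∑ k ∈ Icc 1 K, (1 / 2 : ℝ) ^ k ≤ 1 := by
  rw [th_eq]
  exact (th_lt_one K).le

theorem del_fam (K : ℕ) {h : ℕ → ℝ} (h0 : ∀ A, 0 ≤ h A) (h1 : ∀ A, h A ≤ 1) : Fam (Del K h) := by
  constructor
  · intro A
    unfold Per Del
    intro x
    congr 1
    refine Finset.sum_congr rfl fun k _ => ?_
    have : Al k (x + 3 ^ 1) ↔ Al k x := al_congr k (by simp)
    simp only [this]
  · intro A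
    unfold Del
    rw [← Finset.mul_sum, Finset.sum_comm]
    rw [Finset.sum_eq_zero, mul_zero]
    intro k hk
    rw [← Finset.sum_mul]
    have h2 := al_sum (Finset.mem_Icc.1 hk).1
    have h3 : ∑ d ∈ range 3, ((if Al k (d : ℤ) then (3 : ℝ) else 0) - 1) = 0 := by
      rw [Finset.sum_sub_distrib]
      have : ∀ d : ℕ, (if Al k (d : ℤ) then (3 : ℝ) else 0) = 3 * (if Al k (d : ℤ) then (1 : ℝ) else 0) := by
        intro d; split_ifs <;> simp
      simp only [this]
      rw [← Finset.mul_sum, h2]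
      simp
    rw [h3, zero_mul]
  · intro A y
    unfold Del
    rw [abs_mul, abs_of_pos (by norm_num : (0 : ℝ) < 1 / 2)]
    have h2 : |∑ k ∈ Icc 1 K, ((if Al k y then (3 : ℝ) else 0) - 1) * ((1 / 2) ^ k * h (A + k))| ≤
        ∑ k ∈ Icc 1 K, 2 * (1 / 2 : ℝ) ^ k := by
      refine (Finset.abs_sum_le_sum_abs _ _).trans (Finset.sum_le_sum fun k _ => ?_)
      rw [abs_mul, abs_of_nonneg (mul_nonneg (by positivity) (h0 _))]
      have h3 : |(if Al k y then (3 : ℝ) else 0) - 1| ≤ 2 := by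
        split_ifs <;> norm_num
      have h4 : (1 / 2 : ℝ) ^ k * h (A + k) ≤ (1 / 2 : ℝ) ^ k :=
        mul_le_of_le_one_right (by positivity) (h1 _)
      exact mul_le_mul h3 h4 (mul_nonneg (by positivity) (h0 _)) (by norm_num)
    rw [← Finset.mul_sum] at h2
    have := One_half_le K
    linarith

theorem al_letters (K : ℕ) (h : ℕ → ℝ) (A : ℕ) (y : ℤ) :
    ∑ k ∈ Icc 1 K, (if Al k y then (3 : ℝ) / 2 ^ k * h (A + k) else 0) =
      nx K h A + 2 * Del K h A y := by
  unfold nx Del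
  rw [← mul_assoc, show (2 : ℝ) * (1 / 2) = 1 by norm_num, one_mul, ← Finset.sum_add_distrib]
  refine Finset.sum_congr rfl fun k _ => ?_
  have : (3 : ℝ) / 2 ^ k = 3 * (1 / 2) ^ k := by
    rw [one_div, inv_pow, div_eq_mul_inv]
  split_ifs
  · rw [this]; ring
  · ring

open Classical in
theorem step_one {C ρ : ℝ} (R : Rule C ρ) {i0 l0 K l : ℕ} (H : List ℕ → Prop) (hl0 : l0 ≤ l)
    (h : ℕ → ℝ) (x : ℤ) :
    ∑ w ∈ GH R i0 l0 H K (l + 1), (if Ala x w then ww w * h w.sum else 0) =
      ∑ u ∈ GH R i0 l0 H K l,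
        (if Ala x u then ww u * (nx K h u.sum + 2 * Del K h u.sum (nd x u)) else 0) -
      ∑ w ∈ (lw K (l + 1)).filter
          (fun w => (Good R i0 (w.take l) ∧ H (w.take l0)) ∧ ¬ Good R i0 w),
        (if Ala x w then ww w * h w.sum else 0) := by
  rw [eq_sub_iff_add_eq]
  unfold GH
  rw [Finset.sum_filter, Finset.sum_filter, Finset.sum_filter, ← Finset.sum_add_distrib,
    sum_lw_snoc]
  refine Finset.sum_congr rfl fun u hu => ?_
  have hul : u.length = l := (mem_lw.1 hu).1
  have e1 : ∀ k : ℕ, (u ++ [k]).take l = u := by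
    intro k
    rw [← hul, List.take_left']
    rfl
  have e2 : ∀ k : ℕ, (u ++ [k]).take l0 = u.take l0 := by
    intro k
    rw [List.take_append_of_le_length (by omega)]
  have e3 : ∀ k : ℕ, Good R i0 (u ++ [k]) → Good R i0 u := fun k => good_append
  simp only [e1, e2]
  by_cases hg : Good R i0 u ∧ H (u.take l0)
  · have key : ∀ k : ℕ, ((if Good R i0 (u ++ [k]) ∧ H (u.take l0) then
          (if Ala x (u ++ [k]) then ww (u ++ [k]) * h (u ++ [k]).sum else 0) else 0) +
        (if (Good R i0 u ∧ H (u.take l0)) ∧ ¬ Good R i0 (u ++ [k]) then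
          (if Ala x (u ++ [k]) then ww (u ++ [k]) * h (u ++ [k]).sum else 0) else 0)) =
        if Ala x u then ww u * (if Al k (nd x u) then (3 : ℝ) / 2 ^ k * h (u.sum + k) else 0) else 0 := by
      intro k
      have e4 : Ala x (u ++ [k]) ↔ Ala x u ∧ Al k (nd x u) := by
        rw [ala_append]
        simp [Ala]
      have e5 : ww (u ++ [k]) = ww u * (3 / 2 ^ k) := by
        rw [ww_append, ww_cons, ww_nil, mul_one]
      have e6 : (u ++ [k]).sum = u.sum + k := by simp
      rw [e5, e6]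
      simp only [e4, hg.1, hg.2, and_true, true_and]
      by_cases a : Ala x u <;> by_cases b : Al k (nd x u) <;>
        by_cases c : Good R i0 (u ++ [k]) <;> simp [a, b, c, mul_assoc]
    rw [Finset.sum_congr rfl fun k _ => key k]
    rw [if_pos hg]
    by_cases a : Ala x u
    · simp only [a, if_true]
      rw [← Finset.mul_sum, al_letters]
    · simp [a]
  · rw [if_neg hg]
    refine Finset.sum_eq_zero fun k _ => ?_
    rw [if_neg, if_neg, add_zero]
    · tauto
    · intro hh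
      exact hg ⟨e3 k hh.1, hh.2⟩

end Pool.Agent.helper49.PDR
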