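import Pool.Agent.helper49.PDR.Vio

/-!
# PDR-Vie: the mass of the words which are good up to the level `k1` and violate the rule up to the level `k1 + n`

Such a word `w` has a level `j ∈ (k1, k1 + n]` with `¬ R.Q (w.take j)` (`exists_bad` for `w = w.take k1 ++ w.drop k1`).  Write
`w = u ++ v ++ z` with `u = w.take k`, `u ++ v = w.take j`; `R.Q u` (as `i0 ≤ k ≤ k1`), so `R.B v` by `R.split`.  So the sum is at most
`∑ j ∈ Ioc k1 (k1 + n)` of the sums of `vio_one` with `i = j - k`, `r = k1 + n - j` (`sum_lw_add`; `GS` for `u` by `good_take`), each at most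
`32 2 ^ i0 (3 k + 1) C ρ ^ (j - k) ≤ 32 2 ^ i0 (3 k + 1) C ρ ^ (k1 - k)`.
-/

namespace Pool.Agent.helper49.PDR

open Finset Pool.Agent.helper14.EX1

open Classical in
theorem vio_ext {C ρ : ℝ} (hC : 0 ≤ C) (hρ : 0 ≤ ρ) (hρ1 : ρ ≤ 1) (R : Rule C ρ)
    {i0 K k k1 n : ℕ} (hi0 : i0 ≤ k) (hkk : k ≤ k1) (h5 : 5 * (k1 + n) ≤ 6 * k) (x : ℤ) :
    ∑ w ∈ (lw K (k1 + n)).filter (fun w => Good R i0 (w.take k1) ∧ ¬ Good R i0 w),
      (if Ala x w then ww w else 0) ≤
      n * (32 * 2 ^ i0 * (3 * k + 1) * (C * ρ ^ (k1 - k))) := by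
  have hlen : ∀ w ∈ lw K (k1 + n), w.length = k1 + n := fun w hw => (mem_lw.1 hw).1
  have key : ∀ w ∈ lw K (k1 + n),
      (if Good R i0 (w.take k1) ∧ ¬ Good R i0 w then (if Ala x w then ww w else 0) else 0) ≤
        ∑ j ∈ Ioc k1 (k1 + n),
          (if Good R i0 (w.take k) ∧ R.B ((w.take j).drop k) ∧ Ala x w then ww w else 0) := by
    intro w hw
    have hnn : ∀ j ∈ Ioc k1 (k1 + n),
        0 ≤ (if Good R i0 (w.take k) ∧ R.B ((w.take j).drop k) ∧ Ala x w then ww w else 0) := by
      intro j _
      split_ifs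
      · exact (ww_pos w).le
      · exact le_rfl
    have hl := hlen w hw
    by_cases h : Good R i0 (w.take k1) ∧ ¬ Good R i0 w
    · rw [if_pos h]
      by_cases hA : Ala x w
      · rw [if_pos hA]
        obtain ⟨j, hj1, hj2, hj3, hj4⟩ := exists_bad h.1 (v := w.drop k1)
          (by rw [List.take_append_drop]; exact h.2)
        rw [List.take_append_drop] at hj4
        rw [List.length_take, List.length_drop, hl] at hj2
        rw [List.length_take, hl] at hj1
        have hj : j ∈ Ioc k1 (k1 + n) := by
          rw [mem_Ioc]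
          omega
        refine le_trans (le_of_eq ?_) (single_le_sum hnn hj)
        rw [if_pos]
        refine ⟨?_, ?_, hA⟩
        · have h1 := good_take h.1 k
          rwa [List.take_take, min_eq_left hkk] at h1
        · apply R.split (w.take k)
          · have h1 := h.1 k hi0 (by rw [List.length_take, hl]; omega)
            rwa [List.take_take, min_eq_left hkk] at h1
          · have h2 : w.take k ++ (w.take j).drop k = w.take j := by
              have e : w.take k = (w.take j).take k := by
                rw [List.take_take, min_eq_left (by omega)]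
              rw [e, List.take_append_drop]
            rw [h2]
            exact hj4
      · rw [if_neg hA]
        exact sum_nonneg hnn
    · rw [if_neg h]
      exact sum_nonneg hnn
  have hone : ∀ j ∈ Ioc k1 (k1 + n), ∑ w ∈ lw K (k1 + n),
      (if Good R i0 (w.take k) ∧ R.B ((w.take j).drop k) ∧ Ala x w then ww w else 0) ≤
        32 * 2 ^ i0 * (3 * k + 1) * (C * ρ ^ (k1 - k)) := by
    intro j hj
    rw [mem_Ioc] at hj
    obtain ⟨a, rfl⟩ : ∃ a, j = k + a := ⟨j - k, by omega⟩
    obtain ⟨r, hr⟩ : ∃ r, k1 + n = k + (a + r) := ⟨k1 + n - (k + a), by omega⟩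
    have hle := vio_one hC hρ R (K := K) (k := k) (i := a) (r := r) hi0 (by omega) x
    rw [hr, sum_lw_add]
    refine le_trans (le_of_eq ?_) (hle.trans ?_)
    · rw [GS, sum_filter]
      refine sum_congr rfl fun u hu => ?_
      rw [sum_lw_add]
      have hul := (mem_lw.1 hu).1
      have e1 : ∀ v : List ℕ, (u ++ v).take k = u := by
        intro v
        rw [← hul, List.take_left]
      by_cases hG : Good R i0 u
      · rw [if_pos hG]
        refine sum_congr rfl fun v hv => sum_congr rfl fun z _ => ?_
        have hvl := (mem_lw.1 hv).1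
        have e2 : ((u ++ (v ++ z)).take (k + a)).drop k = v := by
          rw [← List.append_assoc, ← hul, ← hvl, ← List.length_append, List.take_left, List.drop_left]
        rw [e1, e2, ← List.append_assoc]
        by_cases hB : R.B v ∧ Ala x (u ++ v ++ z)
        · rw [if_pos hB, if_pos ⟨hG, hB⟩]
        · rw [if_neg hB, if_neg (fun h => hB h.2)]
      · rw [if_neg hG]
        refine sum_eq_zero fun v _ => sum_eq_zero fun z _ => ?_
        rw [if_neg]
        rintro ⟨h1, _⟩
        rw [e1] at h1
        exact hG h1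
    · have h1 : ρ ^ a ≤ ρ ^ (k1 - k) := pow_le_pow_of_le_one hρ hρ1 (by omega)
      exact mul_le_mul_of_nonneg_left (mul_le_mul_of_nonneg_left h1 hC) (by positivity)
  rw [sum_filter]
  refine (sum_le_sum key).trans ?_
  rw [sum_comm]
  refine (sum_le_sum hone).trans (le_of_eq ?_)
  rw [sum_const, Nat.card_Ioc, nsmul_eq_mul, Nat.add_sub_cancel_left]

end Pool.Agent.helper49.PDR
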