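import Pool.Agent.helper49.PDR.Dtb
import Pool.Agent.helper49.PDR.One
import Pool.Agent.helper49.PDR.Vie

/-!
# PDR-Stp: the main theorem of part R: one step, for EVERY integer `x`

`step_one`; the fluctuation `2 ∑ ww u Del` by `dterm` (`del_fam`); the last sum of `step_one` is at most the sum of `vio_ext` with `k1 = l`,
`n = 1`, `k = l - 2 (l / 50)` (`h ≤ 1`), and `exp_poly`.
-/

namespace Pool.Agent.helper49.PDR

open Finset Pool.Agent.helper14.EX1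

open Classical in
theorem Stp_bad {C ρ : ℝ} (R : Rule C ρ) (i0 l0 K l : ℕ) (H : List ℕ → Prop) (h : ℕ → ℝ)
    (h0 : ∀ A, 0 ≤ h A) (h1 : ∀ A, h A ≤ 1) (x : ℤ) :
    ∑ w ∈ (lw K (l + 1)).filter
          (fun w => (Good R i0 (w.take l) ∧ H (w.take l0)) ∧ ¬ Good R i0 w),
        (if Ala x w then ww w * h w.sum else 0) ≤
      ∑ w ∈ (lw K (l + 1)).filter (fun w => Good R i0 (w.take l) ∧ ¬ Good R i0 w),
        (if Ala x w then ww w else 0) := by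
  have hsub : (lw K (l + 1)).filter
      (fun w => (Good R i0 (w.take l) ∧ H (w.take l0)) ∧ ¬ Good R i0 w) ⊆
      (lw K (l + 1)).filter (fun w => Good R i0 (w.take l) ∧ ¬ Good R i0 w) := by
    intro w hw
    rw [mem_filter] at hw ⊢
    exact ⟨hw.1, hw.2.1.1, hw.2.2⟩
  refine (sum_le_sum fun w _ => ?_).trans (sum_le_sum_of_subset_of_nonneg hsub fun w _ _ => ?_)
  · split_ifs
    · have h2 := mul_le_mul_of_nonneg_left (h1 w.sum) (ww_pos w).le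
      rwa [mul_one] at h2
    · exact le_rfl
  · split_ifs
    · exact (ww_pos w).le
    · exact le_rfl

theorem step_low (p : ℕ) {C ρ : ℝ} (hC : 0 ≤ C) (hρ : 0 < ρ) (hρ1 : ρ < 1) :
    ∃ D : ℝ, 0 ≤ D ∧ ∀ (R : Rule C ρ) (i0 l0 K l : ℕ) (H : List ℕ → Prop) (h : ℕ → ℝ),
      (∀ A, 0 ≤ h A) → (∀ A, h A ≤ 1) → ∀ x : ℤ, 100 ≤ l → 10 * i0 ≤ 9 * l → 25 * l0 ≤ 24 * l →
      ∑ u ∈ GH R i0 l0 H K l, (if Ala x u then ww u * nx K h u.sum else 0) ≤
        ∑ w ∈ GH R i0 l0 H K (l + 1), (if Ala x w then ww w * h w.sum else 0) +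
          2 ^ i0 * (D / (l : ℝ) ^ p) := by
  obtain ⟨D1, hD1, H1⟩ := dterm p hC hρ hρ1
  obtain ⟨D2, hD2, H2⟩ := exp_poly p hρ hρ1
  refine ⟨2 * D1 + 32 * C * D2, by positivity, ?_⟩
  intro R i0 l0 K l H h h0 h1 x hl hi hl0
  have hl1 : l0 ≤ l := by omega
  have e1 := step_one R (i0 := i0) (l0 := l0) (K := K) (l := l) H hl1 h x
  rw [e1]
  -- the fluctuation
  have e2 : ∑ u ∈ GH R i0 l0 H K l,
      (if Ala x u then ww u * (nx K h u.sum + 2 * Del K h u.sum (nd x u)) else 0) =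
      ∑ u ∈ GH R i0 l0 H K l, (if Ala x u then ww u * nx K h u.sum else 0) +
      2 * ∑ u ∈ GH R i0 l0 H K l, (if Ala x u then ww u * Del K h u.sum (nd x u) else 0) := by
    rw [mul_sum, ← sum_add_distrib]
    refine sum_congr rfl fun u _ => ?_
    split_ifs
    · ring
    · ring
  rw [e2]
  have e3 := (abs_le.1 (H1 R i0 l0 K l H (Del K h) (del_fam K h0 h1) x hl hi hl0)).1
  -- the violations
  have e4 := Stp_bad R i0 l0 K l H h h0 h1 x
  have e5 := vio_ext hC hρ.le hρ1.le R (i0 := i0) (K := K) (k := l - 2 * (l / 50)) (k1 := l)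
    (n := 1) (by omega) (by omega) (by omega) x
  have e6 : l - (l - 2 * (l / 50)) = 2 * (l / 50) := by omega
  rw [e6] at e5
  have e7 := H2 l (by omega)
  have hk : ((l - 2 * (l / 50) : ℕ) : ℝ) ≤ l := by exact_mod_cast Nat.sub_le _ _
  have hlr : (1 : ℝ) ≤ l := by exact_mod_cast (by omega : 1 ≤ l)
  have hρp : 0 ≤ ρ ^ (2 * (l / 50)) := pow_nonneg hρ.le _
  have e8 : (3 * ((l - 2 * (l / 50) : ℕ) : ℝ) + 1) * ρ ^ (2 * (l / 50)) ≤ D2 / (l : ℝ) ^ p := by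
    refine le_trans ?_ e7
    have h2 : 3 * ((l - 2 * (l / 50) : ℕ) : ℝ) + 1 ≤ l * (3 * l + 1) := by nlinarith
    exact mul_le_mul_of_nonneg_right h2 hρp
  have e9 : ((1 : ℕ) : ℝ) * (32 * 2 ^ i0 * (3 * ((l - 2 * (l / 50) : ℕ) : ℝ) + 1) *
      (C * ρ ^ (2 * (l / 50)))) ≤ 2 ^ i0 * (32 * C * (D2 / (l : ℝ) ^ p)) := by
    have h3 : ((1 : ℕ) : ℝ) * (32 * 2 ^ i0 * (3 * ((l - 2 * (l / 50) : ℕ) : ℝ) + 1) *
        (C * ρ ^ (2 * (l / 50)))) = 2 ^ i0 * (32 * C *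
        ((3 * ((l - 2 * (l / 50) : ℕ) : ℝ) + 1) * ρ ^ (2 * (l / 50)))) := by
      rw [Nat.cast_one]
      ring
    rw [h3]
    refine mul_le_mul_of_nonneg_left ?_ (by positivity)
    exact mul_le_mul_of_nonneg_left e8 (by positivity)
  have e10 : (2 : ℝ) ^ i0 * ((2 * D1 + 32 * C * D2) / (l : ℝ) ^ p) =
      2 * (2 ^ i0 * (D1 / (l : ℝ) ^ p)) + 2 ^ i0 * (32 * C * (D2 / (l : ℝ) ^ p)) := by
    ring
  rw [e10]
  linarith

end Pool.Agent.helper49.PDR
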