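import Pool.Agent.helper49.PDR.Tel

/-!
# PDR-TelQ: telescoping for an arbitrary part `S` of the strip
-/

namespace Pool.Agent.helper49.PDR

open Finset Pool.Agent.helper14.EX1

open Classical in
/-- The expected number of visits of the free walk to the set `S` of states, in the levels from `l` to `l + n`. -/
noncomputable def visQ (K : ℕ) (S : ℕ → ℕ → Prop) : ℕ → ℕ → ℕ → ℝ
  | 0, l, A => if S l A then 1 else 0
  | n + 1, l, A => (if S l A then 1 else 0) +
      ∑ k ∈ Icc 1 K, (1 / 2 : ℝ) ^ k * visQ K S n (l + 1) (A + k)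

theorem visQ_nn (K : ℕ) (S : ℕ → ℕ → Prop) (n l A : ℕ) : 0 ≤ visQ K S n l A := by
  classical
  induction n generalizing l A with
  | zero =>
    simp only [visQ]
    split_ifs <;> norm_num
  | succ n ih =>
    simp only [visQ]
    have h1 : (0 : ℝ) ≤ if S l A then 1 else 0 := by split_ifs <;> norm_num
    have h2 : 0 ≤ ∑ k ∈ Icc 1 K, (1 / 2 : ℝ) ^ k * visQ K S n (l + 1) (A + k) :=
      sum_nonneg fun k _ => mul_nonneg (by positivity) (ih _ _)
    linarith

theorem visQ_le (K : ℕ) {X : ℝ} {S : ℕ → ℕ → Prop} (hS : ∀ l A, S l A → strip X l A)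
    (n l A : ℕ) : visQ K S n l A ≤ vis K X n l A := by
  classical
  have h0 : ∀ l A, (if S l A then (1 : ℝ) else 0) ≤ if strip X l A then 1 else 0 := by
    intro l A
    by_cases h : S l A
    · rw [if_pos h, if_pos (hS l A h)]
    · rw [if_neg h]
      split_ifs <;> norm_num
  induction n generalizing l A with
  | zero =>
    simp only [visQ, vis]
    exact h0 l A
  | succ n ih =>
    simp only [visQ, vis]
    refine add_le_add (h0 l A) (sum_le_sum fun k _ => ?_)
    exact mul_le_mul_of_nonneg_left (ih _ _) (by positivity)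

/-- The whole strip. -/
theorem visQ_strip (K : ℕ) (X : ℝ) (n l A : ℕ) : visQ K (strip X) n l A = vis K X n l A := by
  classical
  induction n generalizing l A with
  | zero => simp only [visQ, vis]
  | succ n ih => simp only [visQ, vis, ih]

open Classical in
theorem visQ_tel {C ρ : ℝ} (hC : 0 ≤ C) (hρ : 0 < ρ) (hρ1 : ρ < 1) (i0 : ℕ) {d : ℝ} (hd : 0 < d) :
    ∃ n0 : ℕ, i0 ≤ n0 ∧ ∀ (R : Rule C ρ) (h0 l : ℕ), n0 ≤ l → 11 * h0 ≤ 10 * l →
      ∀ (K r : ℕ) (X : ℝ) (x : ℤ) (H : List ℕ → Prop) (S : ℕ → ℕ → Prop), 0 < X →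
      (∀ l A, S l A → strip X l A) →
      ∑ u ∈ GH R i0 h0 H K l, (if Ala x u then ww u * visQ K S r l u.sum else 0) - d ≤
        ∑ j ∈ range (r + 1), ∑ v ∈ GH R i0 h0 H K (l + j),
          (if Ala x v ∧ S (l + j) v.sum then ww v else 0) := by
  obtain ⟨D, hD, hstep⟩ := step_low 2 hC hρ hρ1
  obtain ⟨M, hM, hvis⟩ := vis_le
  obtain ⟨E, hE⟩ : ∃ E, E = M * (2 ^ i0 * D) := ⟨_, rfl⟩
  have hE0 : 0 ≤ E := by
    rw [hE]
    have : 0 ≤ M := by linarith
    positivity
  obtain ⟨n1, hn1⟩ := exists_nat_ge (2 * E / d)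
  refine ⟨max (max 100 (2 * i0)) (n1 + 1), ?_, ?_⟩
  · omega
  intro R h0 l hl hh K r X x H S hX hS
  have key : ∀ (r l : ℕ), max (max 100 (2 * i0)) (n1 + 1) ≤ l → 11 * h0 ≤ 10 * l →
      ∑ u ∈ GH R i0 h0 H K l, (if Ala x u then ww u * visQ K S r l u.sum else 0) - E * (2 / l) ≤
        ∑ j ∈ range (r + 1), ∑ v ∈ GH R i0 h0 H K (l + j),
          (if Ala x v ∧ S (l + j) v.sum then ww v else 0) := by
    intro r
    induction r with
    | zero =>
      intro l hl hh
      have h1 : (0:ℝ) ≤ E * (2 / l) := by positivity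
      rw [zero_add, sum_range_one]
      have h2 : ∑ u ∈ GH R i0 h0 H K l, (if Ala x u then ww u * visQ K S 0 l u.sum else 0) =
          ∑ v ∈ GH R i0 h0 H K (l + 0), (if Ala x v ∧ S (l + 0) v.sum then ww v else 0) := by
        rw [add_zero]
        refine sum_congr rfl fun u _ => ?_
        unfold visQ
        by_cases a1 : Ala x u
        · by_cases a2 : S l u.sum
          · simp [a1, a2]
          · simp [a1, a2]
        · simp [a1]
      linarith
    | succ r ih =>
      intro l hl hh
      have hl1 : 1 ≤ l := by omega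
      have h1 := ih (l + 1) (by omega) (by omega)
      have h2 := Tel_scale (R := R) (i0 := i0) (h0 := h0) (K := K) (l := l) (H := H) (D := D) hM
        (fun h a b y => hstep R i0 h0 K l H h a b y (by omega) (by omega) (by omega))
        (fun A => visQ K S r (l + 1) A) (fun A => visQ_nn K S r (l + 1) A)
        (fun A => (visQ_le K hS r (l + 1) A).trans (hvis K X r (l + 1) A hX)) x
      have h3 : ∑ u ∈ GH R i0 h0 H K l, (if Ala x u then ww u * visQ K S (r + 1) l u.sum else 0) =
          ∑ v ∈ GH R i0 h0 H K (l + 0), (if Ala x v ∧ S (l + 0) v.sum then ww v else 0) +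
          ∑ u ∈ GH R i0 h0 H K l,
            (if Ala x u then ww u * nx K (fun A => visQ K S r (l + 1) A) u.sum else 0) := by
        rw [add_zero, ← sum_add_distrib]
        refine sum_congr rfl fun u _ => ?_
        have e : visQ K S (r + 1) l u.sum = (if S l u.sum then 1 else 0) +
            nx K (fun A => visQ K S r (l + 1) A) u.sum := rfl
        rw [e]
        by_cases a1 : Ala x u
        · by_cases a2 : S l u.sum
          · simp [a1, a2, mul_add]
          · simp [a1, a2]
        · simp [a1]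
      have h4 : ∑ j ∈ range (r + 1 + 1), ∑ v ∈ GH R i0 h0 H K (l + j),
            (if Ala x v ∧ S (l + j) v.sum then ww v else 0) =
          ∑ j ∈ range (r + 1), ∑ v ∈ GH R i0 h0 H K (l + 1 + j),
            (if Ala x v ∧ S (l + 1 + j) v.sum then ww v else 0) +
          ∑ v ∈ GH R i0 h0 H K (l + 0), (if Ala x v ∧ S (l + 0) v.sum then ww v else 0) := by
        rw [sum_range_succ']
        congr 1
        refine sum_congr rfl fun j _ => ?_
        have e : l + (j + 1) = l + 1 + j := by ring
        rw [e]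
      have h5 : M * (2 ^ i0 * (D / (l : ℝ) ^ 2)) + E * (2 / ((l + 1 : ℕ) : ℝ)) ≤ E * (2 / l) := by
        have e : M * (2 ^ i0 * (D / (l : ℝ) ^ 2)) = E * (1 / (l : ℝ) ^ 2) := by
          rw [hE]
          ring
        rw [e, ← mul_add]
        refine mul_le_mul_of_nonneg_left ?_ hE0
        push_cast
        exact Tel_inv (by exact_mod_cast hl1)
      rw [h3, h4]
      linarith
  have h1 := key r l hl hh
  have h2 : E * (2 / l) ≤ d := by
    have hl0 : (0:ℝ) < l := by
      have : 0 < l := by omega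
      exact_mod_cast this
    have h3 : 2 * E / d ≤ l := by
      refine hn1.trans ?_
      have : n1 ≤ l := by omega
      exact_mod_cast this
    rw [div_le_iff₀ hd] at h3
    rw [← mul_div_assoc, div_le_iff₀ hl0]
    linarith
  linarith

end Pool.Agent.helper49.PDR
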