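import Pool.Agent.helper49.PDR.ClsG
import Pool.Agent.helper49.PDR.Av

/-!
# PDR-Vio: the mass of the extensions with an exceptional piece

`Ala x (u ++ v ++ z) ↔ Ala x u ∧ Ala (nd x u) v ∧ Ala (nd (nd x u) v) z`, `ww` is multiplicative: the sum over `z` is `FF K r`.  Put
`g y = ∑ v ∈ lw K i, if R.B v ∧ Ala y v then ww v * FF K r (nd y v) else 0`, `Per (r + i)` (`per_words`, `per_FF`), with average
`∑ v, [R.B v] (1/2)^v.sum * avg r (FF K r) ≤ C ρ ^ i` (`avg_words`, `avg_FF_le`, `R.prob`).  Then `cls_good` with `m = r + i`.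
-/

namespace Pool.Agent.helper49.PDR

open Finset Pool.Agent.helper14.EX1

open Classical in
/-- the function of the end of the good word -/
noncomputable def Vio_g {C ρ : ℝ} (R : Rule C ρ) (K i r : ℕ) (y : ℤ) : ℝ :=
  ∑ v ∈ lw K i, if R.B v ∧ Ala y v then ww v * FF K r (nd y v) else 0

theorem Vio_per {C ρ : ℝ} (R : Rule C ρ) (K i r : ℕ) : Per (r + i) (Vio_g R K i r) := by
  have h := per_words K i r R.B (g := fun _ => FF K r) (fun _ => per_FF K r)
  exact h

theorem Vio_nn {C ρ : ℝ} (R : Rule C ρ) (K i r : ℕ) (y : ℤ) : 0 ≤ Vio_g R K i r y := by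
  unfold Vio_g
  refine sum_nonneg fun v _ => ?_
  split_ifs
  · exact mul_nonneg (ww_pos v).le (FF_nn K r _)
  · exact le_rfl

theorem Vio_avg {C ρ : ℝ} (R : Rule C ρ) (K i r : ℕ) :
    avg (r + i) (Vio_g R K i r) ≤ C * ρ ^ i := by
  have h := avg_words K i r R.B (g := fun _ => FF K r) (fun _ => per_FF K r)
  have h' : avg (r + i) (Vio_g R K i r) = _ := h
  rw [h']
  refine le_trans (sum_le_sum fun v _ => ?_) (R.prob K i)
  split_ifs
  · have h1 : (0 : ℝ) ≤ (1 / 2) ^ v.sum := by positivity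
    calc (1 / 2 : ℝ) ^ v.sum * avg r (FF K r) ≤ (1 / 2) ^ v.sum * 1 :=
          mul_le_mul_of_nonneg_left (avg_FF_le K r) h1
      _ = (1 / 2) ^ v.sum := mul_one _
  · exact le_rfl

open Classical in
theorem Vio_inner {C ρ : ℝ} (R : Rule C ρ) (K i r : ℕ) (x : ℤ) (u : List ℕ) :
    ∑ v ∈ lw K i, ∑ z ∈ lw K r,
      (if R.B v ∧ Ala x (u ++ v ++ z) then ww (u ++ v ++ z) else 0) =
    if Ala x u then ww u * Vio_g R K i r (nd x u) else 0 := by
  by_cases hu : Ala x u
  · rw [if_pos hu]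
    unfold Vio_g
    rw [mul_sum]
    refine sum_congr rfl fun v _ => ?_
    by_cases hv : R.B v ∧ Ala (nd x u) v
    · rw [if_pos hv]
      unfold FF
      rw [mul_sum, mul_sum]
      refine sum_congr rfl fun z _ => ?_
      by_cases hz : Ala (nd (nd x u) v) z
      · have h1 : Ala x (u ++ v ++ z) := by
          rw [ala_append, ala_append, nd_append]
          exact ⟨⟨hu, hv.2⟩, hz⟩
        rw [if_pos ⟨hv.1, h1⟩, if_pos hz, ww_append, ww_append]
        ring
      · have h1 : ¬ (R.B v ∧ Ala x (u ++ v ++ z)) := by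
          rintro ⟨_, h2⟩
          rw [ala_append, nd_append] at h2
          exact hz h2.2
        rw [if_neg h1, if_neg hz]
        ring
    · rw [if_neg hv, mul_zero]
      refine sum_eq_zero fun z _ => ?_
      rw [if_neg]
      rintro ⟨h1, h2⟩
      rw [ala_append, ala_append] at h2
      exact hv ⟨h1, h2.1.2⟩
  · rw [if_neg hu]
    refine sum_eq_zero fun v _ => sum_eq_zero fun z _ => ?_
    rw [if_neg]
    rintro ⟨_, h2⟩
    rw [ala_append, ala_append] at h2
    exact hu h2.1.1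

open Classical in
theorem vio_one {C ρ : ℝ} (hC : 0 ≤ C) (hρ : 0 ≤ ρ) (R : Rule C ρ) {i0 K k i r : ℕ}
    (hi0 : i0 ≤ k) (hk : 5 * (r + i) ≤ k) (x : ℤ) :
    ∑ u ∈ GS R i0 K k, ∑ v ∈ lw K i, ∑ z ∈ lw K r,
      (if R.B v ∧ Ala x (u ++ v ++ z) then ww (u ++ v ++ z) else 0) ≤
      32 * 2 ^ i0 * (3 * k + 1) * (C * ρ ^ i) := by
  have h1 : ∑ u ∈ GS R i0 K k, ∑ v ∈ lw K i, ∑ z ∈ lw K r,
      (if R.B v ∧ Ala x (u ++ v ++ z) then ww (u ++ v ++ z) else 0) =
      ∑ u ∈ GS R i0 K k, (if Ala x u then ww u * Vio_g R K i r (nd x u) else 0) :=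
    sum_congr rfl fun u _ => Vio_inner R K i r x u
  rw [h1]
  have h2 := cls_good R (K := K) (m := r + i) hi0 hk (g := fun _ => Vio_g R K i r)
    (fun _ => Vio_per R K i r) (fun _ y => Vio_nn R K i r y) x
  refine h2.trans ?_
  rw [sum_const, card_range, nsmul_eq_mul]
  have h3 := Vio_avg R K i r
  have h4 : (0 : ℝ) ≤ 32 * 2 ^ i0 * (3 * k + 1) := by positivity
  calc 32 * 2 ^ i0 * (((3 * k + 1 : ℕ) : ℝ) * avg (r + i) (Vio_g R K i r)) =
        32 * 2 ^ i0 * (3 * k + 1) * avg (r + i) (Vio_g R K i r) := by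
          push_cast
          ring
    _ ≤ 32 * 2 ^ i0 * (3 * k + 1) * (C * ρ ^ i) := mul_le_mul_of_nonneg_left h3 h4

end Pool.Agent.helper49.PDR
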